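import Mathlib

/-! Canonical completion of a partial bijection (given as a relation) to a permutation. -/

namespace Pool.Agent.Lib.MP_a112e0_al
open Relation

variable {V : Type*}

/-- follow the relation, and from the end of a finite chain jump back to its start -/
def Cp (r : V → V → Prop) (x y : V) : Prop :=
  r x y ∨ ((¬ ∃ z, r x z) ∧ (¬ ∃ z, r z y) ∧ ReflTransGen r y x)

def RU (r : V → V → Prop) : Prop := ∀ x y z, r x y → r x z → y = z

def SQ (r t : V → V → Prop) : Prop := ∀ x y z, r x y → t x z → ∃ w, t y w ∧ r z w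

def SQ4 (r t : V → V → Prop) : Prop :=
  SQ r t ∧ SQ (flip r) t ∧ SQ r (flip t) ∧ SQ (flip r) (flip t)

theorem rtg_flip {r : V → V → Prop} {x y : V} :
    ReflTransGen (flip r) x y ↔ ReflTransGen r y x := reflTransGen_swap

theorem cp_flip (r : V → V → Prop) : Cp (flip r) = flip (Cp r) := by
  funext x y
  apply propext
  simp only [Cp, flip]
  constructor
  · rintro (h | ⟨h1, h2, h3⟩)
    · exact Or.inl h
    · exact Or.inr ⟨h2, h1, rtg_flip.1 h3⟩
  · rintro (h | ⟨h1, h2, h3⟩)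
    · exact Or.inl h
    · exact Or.inr ⟨h2, h1, rtg_flip.2 h3⟩

theorem start_unique {r : V → V → Prop} (hl : RU (flip r)) {x y y' : V}
    (h : ReflTransGen r y x) (h' : ReflTransGen r y' x) (hy : ¬ ∃ z, r z y)
    (hy' : ¬ ∃ z, r z y') : y = y' := by
  induction h generalizing y' with
  | refl =>
    rcases h'.cases_tail with e | ⟨z, _, hz⟩
    · exact e
    · exact (hy ⟨z, hz⟩).elim
  | tail h1 h2 ih =>
    rcases h'.cases_tail with e | ⟨z, hz1, hz⟩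
    · subst e; exact (hy' ⟨_, h2⟩).elim
    · have := hl _ _ _ h2 hz
      subst this
      exact ih hz1 hy'

theorem ru_cp {r : V → V → Prop} (hr : RU r) (hl : RU (flip r)) : RU (Cp r) := by
  rintro x y z (h | ⟨h1, h2, h3⟩) (k | ⟨k1, k2, k3⟩)
  · exact hr _ _ _ h k
  · exact (k1 ⟨_, h⟩).elim
  · exact (h1 ⟨_, k⟩).elim
  · exact start_unique hl h3 k3 h2 k2

theorem sq_symm {r t : V → V → Prop} (h : SQ r t) : SQ t r := by
  intro x y z h1 h2
  obtain ⟨w, a, b⟩ := h x z y h2 h1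
  exact ⟨w, b, a⟩

theorem sq4_symm {r t : V → V → Prop} (h : SQ4 r t) : SQ4 t r :=
  ⟨sq_symm h.1, sq_symm h.2.2.1, sq_symm h.2.1, sq_symm h.2.2.2⟩

theorem sq_cp {r t : V → V → Prop} (h : SQ4 r t) : SQ (Cp r) t := by
  rintro x y z (h0 | ⟨h1, h2, h3⟩) hz
  · obtain ⟨w, a, b⟩ := h.1 x y z h0 hz
    exact ⟨w, a, Or.inl b⟩
  · have key : ∀ y, ReflTransGen r y x → ∃ w, t y w ∧ ReflTransGen r w z := by
      intro y hy
      induction hy using ReflTransGen.head_induction_on with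
      | refl => exact ⟨z, hz, ReflTransGen.refl⟩
      | head h4 _ ih =>
        obtain ⟨w, a, b⟩ := ih
        obtain ⟨w', c, d⟩ := h.2.1 _ _ _ h4 a
        exact ⟨w', c, ReflTransGen.head d b⟩
    obtain ⟨w, a, b⟩ := key y h3
    refine ⟨w, a, Or.inr ⟨?_, ?_, b⟩⟩
    · rintro ⟨z', hz'⟩
      obtain ⟨u, _, d⟩ := h.2.2.1 z z' x hz' hz
      exact h1 ⟨u, d⟩
    · rintro ⟨z', hz'⟩
      obtain ⟨u, _, d⟩ := h.2.2.2 w z' y hz' a
      exact h2 ⟨u, d⟩

theorem sq4_cp {r t : V → V → Prop} (h : SQ4 r t) : SQ4 (Cp r) t := by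
  refine ⟨sq_cp h, ?_, sq_cp ⟨h.2.2.1, h.2.2.2, h.1, h.2.1⟩, ?_⟩
  · rw [← cp_flip]; exact sq_cp ⟨h.2.1, h.1, h.2.2.2, h.2.2.1⟩
  · rw [← cp_flip]; exact sq_cp ⟨h.2.2.2, h.2.2.1, h.2.1, h.1⟩

theorem sq_cp_cp {r t : V → V → Prop} (h : SQ4 r t) : SQ (Cp r) (Cp t) :=
  (sq4_symm (sq4_cp (sq4_symm (sq4_cp h)))).1

/-- `x` has a forward chain with `n` steps -/
def Fw (r : V → V → Prop) : ℕ → V → Prop
  | 0, _ => True
  | n + 1, x => ∃ y, r x y ∧ Fw r n y

theorem fw_mono {r : V → V → Prop} : ∀ (n : ℕ) (x : V), Fw r (n + 1) x → Fw r n x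
  | 0, _, _ => trivial
  | n + 1, _, ⟨y, a, b⟩ => ⟨y, a, fw_mono n y b⟩

theorem fw_le {r : V → V → Prop} {m n : ℕ} (h : m ≤ n) {x : V} (hx : Fw r n x) : Fw r m x := by
  induction h with
  | refl => exact hx
  | step _ ih => exact ih (fw_mono _ _ hx)

theorem fw_map {r : V → V → Prop} (f : V → V) (hf : ∀ x y, r x y → r (f x) (f y)) :
    ∀ (n : ℕ) (x : V), Fw r n x → Fw r n (f x)
  | 0, _, _ => trivial
  | n + 1, _, ⟨y, a, b⟩ => ⟨f y, hf _ _ a, fw_map f hf n y b⟩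

/-- a finite colouring whose colour classes are homogeneous forbids half-infinite chains -/
theorem cp_total {r : V → V → Prop} (hr : RU r) {A : Type*} [Finite A] (col : V → A)
    (hcol : ∀ x y, (∃ z, r x z) → (∃ z, r y z) → col x = col y →
      ∃ f : V → V, (∀ a b, r a b → r (f a) (f b)) ∧ f x = y) (x : V) : ∃ y, Cp r x y := by
  by_cases hx : ∃ z, r x z
  · obtain ⟨z, hz⟩ := hx
    exact ⟨z, Or.inl hz⟩
  by_contra hcon
  have hpre : ∀ y, ReflTransGen r y x → ∃ z, r z y := by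
    intro y hy
    by_contra h
    exact hcon ⟨y, Or.inr ⟨hx, h, hy⟩⟩
  have key : ∀ n : ℕ, ∃ y, ReflTransGen r y x ∧ Fw r n y ∧ ¬ Fw r (n + 1) y := by
    intro n
    induction n with
    | zero => exact ⟨x, ReflTransGen.refl, trivial, fun ⟨y, a, _⟩ => hx ⟨y, a⟩⟩
    | succ n ih =>
      obtain ⟨y, a, b, c⟩ := ih
      obtain ⟨z, hz⟩ := hpre y a
      refine ⟨z, ReflTransGen.head hz a, ⟨y, hz, b⟩, ?_⟩
      rintro ⟨y', d, e⟩
      rw [hr _ _ _ d hz] at e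
      exact c e
  choose y hy1 hy2 hy3 using key
  have main : ∀ i j : ℕ, i < j → col (y (i + 1)) ≠ col (y (j + 1)) := by
    intro i j hij e
    obtain ⟨a, ha, _⟩ := hy2 (i + 1)
    obtain ⟨b, hb, _⟩ := hy2 (j + 1)
    obtain ⟨f, f1, f2⟩ := hcol _ _ ⟨b, hb⟩ ⟨a, ha⟩ e.symm
    have := fw_map f f1 _ _ (hy2 (j + 1))
    rw [f2] at this
    exact hy3 (i + 1) (fw_le (by omega) this)
  obtain ⟨i, j, hij, e⟩ := Finite.exists_ne_map_eq_of_infinite fun i : ℕ => col (y (i + 1))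
  rcases lt_or_gt_of_ne hij with h | h
  · exact main i j h e
  · exact main j i h e.symm

/-- the graph of a permutation -/
theorem exists_perm {R : V → V → Prop} (h1 : RU R) (h2 : RU (flip R)) (t1 : ∀ x, ∃ y, R x y)
    (t2 : ∀ y, ∃ x, R x y) : ∃ σ : Equiv.Perm V, ∀ x y, σ x = y ↔ R x y := by
  choose f hf using t1
  choose g hg using t2
  refine ⟨⟨f, g, fun x => h2 _ _ _ (hg (f x)) (hf x), fun y => h1 _ _ _ (hf (g y)) (hg y)⟩, ?_⟩
  intro x y
  constructor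
  · rintro rfl; exact hf x
  · intro h; exact h1 _ _ _ (hf x) h

theorem cp_map {r r' : V → V → Prop} (π : Equiv.Perm V) (h : ∀ x y, r' (π x) (π y) ↔ r x y)
    {x y : V} (hc : Cp r x y) : Cp r' (π x) (π y) := by
  rcases hc with hc | ⟨h1, h2, h3⟩
  · exact Or.inl ((h _ _).2 hc)
  · refine Or.inr ⟨?_, ?_, ?_⟩
    · rintro ⟨z, hz⟩
      obtain ⟨z, rfl⟩ := π.surjective z
      exact h1 ⟨z, (h _ _).1 hz⟩
    · rintro ⟨z, hz⟩
      obtain ⟨z, rfl⟩ := π.surjective z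
      exact h2 ⟨z, (h _ _).1 hz⟩
    · exact h3.lift π fun a b hab => (h _ _).2 hab

end Pool.Agent.Lib.MP_a112e0_al
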