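import Pool.Agent.Lib.MP_a112e0_al.Imit

/-! Separability of convex cocompact subgroups and of their double cosets in special groups. -/

namespace Pool.Agent.Lib.MP_a112e0_al
open Relation

variable {V : Type*} {X : SimpleGraph V} {M : Type*} [Group M] [MulAction M V]

def Cofin (P : Subgroup M) (C : Set V) : Prop :=
  ∃ F : Finset V, ∀ c ∈ C, ∃ h ∈ P, ∃ f ∈ F, c = h • f

theorem exists_reps (L : Subgroup M) [L.FiniteIndex] (P : Set M) :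
    ∃ T : Finset M, (∀ t ∈ T, t ∈ P) ∧ ∀ h ∈ P, ∃ t ∈ T, t⁻¹ * h ∈ L := by
  classical
  have : ∀ q : M ⧸ L, ∃ t : M, (∃ h ∈ P, (h : M ⧸ L) = q) → t ∈ P ∧ (t : M ⧸ L) = q := by
    intro q
    by_cases k : ∃ h ∈ P, (h : M ⧸ L) = q
    · obtain ⟨h, k⟩ := k
      exact ⟨h, fun _ => k⟩
    · exact ⟨1, fun l => (k l).elim⟩
  choose t ht using this
  have := Fintype.ofFinite (M ⧸ L)
  refine ⟨(Finset.univ.image t).filter (· ∈ P), fun a ha => (Finset.mem_filter.1 ha).2,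
    fun h hh => ⟨t h, ?_, ?_⟩⟩
  · exact Finset.mem_filter.2 ⟨Finset.mem_image_of_mem _ (Finset.mem_univ _), (ht _ ⟨h, hh, rfl⟩).1⟩
  · exact QuotientGroup.eq.1 (ht _ ⟨h, hh, rfl⟩).2

theorem cofin_inf {P : Subgroup M} {C : Set V} (h : Cofin P C) (L : Subgroup M) [L.FiniteIndex] :
    Cofin (P ⊓ L) C := by
  classical
  obtain ⟨F, hF⟩ := h
  obtain ⟨T, h1, h2⟩ := exists_reps L (P : Set M)
  refine ⟨(T ×ˢ F).image fun p => p.1⁻¹ • p.2, fun c hc => ?_⟩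
  obtain ⟨h, hh, f, hf, rfl⟩ := hF c hc
  obtain ⟨t, t1, t2⟩ := h2 h⁻¹ (P.inv_mem hh)
  refine ⟨h * t, ⟨P.mul_mem hh (h1 t t1), by simpa using L.inv_mem t2⟩, t⁻¹ • f,
    Finset.mem_image.2 ⟨(t, f), Finset.mem_product.2 ⟨t1, hf⟩, rfl⟩, ?_⟩
  rw [mul_smul, smul_inv_smul]

variable {K0 P : Subgroup M} {C : Set V}

theorem rl_mem (hG : ∀ (g : M) u v, X.Adj u v → X.Adj (g • u) (g • v)) (hP : P ≤ K0)
    (hH : ∀ h ∈ P, ∀ c ∈ C, h • c ∈ C) {k : M} (hk : k ∈ P) {e : V × V} {x y : V}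
    (h : Rl X K0 C e x y) : Rl X K0 C e (k • x) (k • y) :=
  ⟨hH k hk _ h.1, hH k hk _ h.2.1, hG k _ _ h.2.2.1,
    par_trans (par_symm (par_mem (hP hk) _ _)) h.2.2.2⟩

theorem imit (hX : IsMedianGraph X) (hG : ∀ (g : M) u v, X.Adj u v → X.Adj (g • u) (g • v))
    (hN : ActsSpecially X K0) (hP : P ≤ K0) {x : V} (hx : x ∈ C) (hC : IsConvexIn X C)
    (hH : ∀ h ∈ P, ∀ c ∈ C, h • c ∈ C) (hF : Cofin P C) :
    ∃ r : V → V, (∀ c ∈ C, r c = c) ∧ (∀ v, r v ∈ C) ∧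
      (∀ u v, X.Adj u v → Cp (Rl X K0 C (u, v)) (r u) (r v)) ∧
      ∀ k ∈ P, ∀ g ∈ K0, ∀ u, r (g • u) = k • r u → ∀ v, r (g • v) = k • r v := by
  obtain ⟨F, hF⟩ := hF
  have tot : ∀ e x, ∃ y, Cp (Rl X K0 C e) x y := by
    intro e
    have hF' : ∀ c, ∃ h ∈ P, ∃ f : Option F, c ∈ C → ∃ f' : F, f = some f' ∧ c = h • f'.1 := by
      intro c
      by_cases hc : c ∈ C
      · obtain ⟨h, a, f, b, d⟩ := hF c hc
        exact ⟨h, a, some ⟨f, b⟩, fun _ => ⟨⟨f, b⟩, rfl, d⟩⟩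
      · exact ⟨1, P.one_mem, none, fun k => (hc k).elim⟩
    choose h hh f hf using hF'
    refine cp_total (rl_ru hN e) f ?_
    rintro a b ⟨_, ha, _⟩ ⟨_, hb, _⟩ c2
    obtain ⟨f1, a1, a2⟩ := hf a ha
    obtain ⟨f2, b1, b2⟩ := hf b hb
    have c3 : f1 = f2 := by
      have : some f1 = some f2 := by rw [← a1, ← b1]; exact c2
      exact Option.some.inj this
    refine ⟨fun z => (h b * (h a)⁻¹) • z,
      fun u v k => rl_mem hG hP hH (P.mul_mem (hh b) (P.inv_mem (hh a))) k, ?_⟩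
    subst c3
    show (h b * (h a)⁻¹) • a = b
    rw [mul_smul, inv_smul_eq_iff.2 a2]
    exact b2.symm
  have ex : ∀ u v : V, ∃ σ : Equiv.Perm V, ∀ a b, σ a = b ↔ Cp (Rl X K0 C (u, v)) a b := by
    intro u v
    have r1 := rl_ru (C := C) hN (u, v)
    have r2 : RU (flip (Rl X K0 C (u, v))) := by rw [rl_flip]; exact rl_ru hN _
    refine exists_perm (ru_cp r1 r2) ?_ (tot _) fun y => ?_
    · rw [← cp_flip]; exact ru_cp r2 r1
    · have := tot (v, u) y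
      rwa [← rl_flip, cp_flip] at this
  choose τ hτ using ex
  have tcongr : ∀ a b c d, Par X K0 (a, b) (c, d) → τ a b = τ c d := by
    intro a b c d h
    ext z
    rw [hτ, rl_congr h, ← hτ]
  obtain ⟨Q, -, hQ⟩ := exists_potential hX τ (by
    intro u v _
    ext z
    have := (hτ u v z _).1 rfl
    rw [Equiv.Perm.mul_apply, Equiv.Perm.one_apply, hτ, ← rl_flip, cp_flip]
    exact this) (by
    intro a b c d h
    rw [tcongr b c a d (par_sq (sq_rot h)), ← tcongr a b d c (par_sq h)]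
    ext z
    obtain ⟨w, w1, w2⟩ := sq_cp_cp (rl_sq4 hX hN hC h) z _ _ ((hτ a b z _).1 rfl)
      ((hτ a d z _).1 rfl)
    rw [Equiv.Perm.mul_apply, Equiv.Perm.mul_apply, (hτ _ _ _ _).2 w1, (hτ _ _ _ _).2 w2]) x
  have teq : ∀ k ∈ P, ∀ u v z, τ u v (k • z) = k • τ u v z := by
    intro k hk u v z
    rw [hτ]
    refine cp_map (MulAction.toPerm k) (fun a b => ⟨fun h => ?_, rl_mem hG hP hH hk⟩)
      ((hτ u v z _).1 rfl)
    simpa using rl_mem hG hP hH (P.inv_mem hk) h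
  obtain ⟨z, hz⟩ := (Q x).surjective x
  refine ⟨fun v => Q v z, ?_, ?_, ?_, ?_⟩ <;> beta_reduce
  · refine convex_ind hX.1 hC hx hz fun u v hu hv huv ih => ?_
    rw [hQ _ _ huv, Equiv.Perm.mul_apply, ih, hτ]
    exact Or.inl ⟨hu, hv, huv, par_refl _⟩
  · refine conn_ind hX.1 x (by rw [hz]; exact hx) fun u v huv ih => ?_
    rw [hQ _ _ huv, Equiv.Perm.mul_apply]
    rcases (hτ u v (Q u z) _).1 rfl with h | ⟨_, _, h⟩
    · exact h.2.1
    · rcases h.cases_head with h | ⟨_, h, _⟩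
      · rw [h]; exact ih
      · exact h.1
  · intro u v huv
    rw [← hτ, hQ _ _ huv, Equiv.Perm.mul_apply]
  · intro k hk g hg u h0
    refine conn_ind hX.1 u h0 fun a b hab ih => ?_
    rw [hQ _ _ (hG g _ _ hab), hQ _ _ hab, Equiv.Perm.mul_apply, Equiv.Perm.mul_apply, ih,
      ← tcongr _ _ _ _ (par_mem hg a b), teq k hk]

/-- the elements whose action is imitated by an element of `P` -/
def imitGroup (K0 P : Subgroup M) (r : V → V) : Subgroup M where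
  carrier := {g | g ∈ K0 ∧ ∃ k ∈ P, ∀ v, r (g • v) = k • r v}
  mul_mem' := by
    rintro a b ⟨a1, k, k1, k2⟩ ⟨b1, l, l1, l2⟩
    exact ⟨K0.mul_mem a1 b1, k * l, P.mul_mem k1 l1, fun v => by
      rw [mul_smul, k2, l2, mul_smul]⟩
  one_mem' := ⟨K0.one_mem, 1, P.one_mem, fun v => by simp⟩
  inv_mem' := by
    rintro a ⟨a1, k, k1, k2⟩
    refine ⟨K0.inv_mem a1, k⁻¹, P.inv_mem k1, fun v => ?_⟩
    rw [eq_inv_smul_iff, ← k2, smul_inv_smul]

theorem imit_fi [K0.FiniteIndex] {r : V → V} (x : V) (h1 : ∀ v, r v ∈ C) (hF : Cofin P C)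
    (h2 : ∀ k ∈ P, ∀ g ∈ K0, ∀ u, r (g • u) = k • r u → ∀ v, r (g • v) = k • r v) :
    (imitGroup K0 P r).FiniteIndex := by
  obtain ⟨F, hF⟩ := hF
  choose h hh f hf e using fun g : M => hF _ (h1 (g • x))
  let col : M → (M ⧸ K0) × F := fun g => ((g : M ⧸ K0), ⟨f g⁻¹, hf _⟩)
  have hcol : ∀ g g', col g = col g' → (g : M ⧸ imitGroup K0 P r) = g' := by
    intro g g' hc
    obtain ⟨c1, c2⟩ := Prod.ext_iff.1 hc
    have c3 : f g⁻¹ = f g'⁻¹ := congrArg Subtype.val c2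
    have c4 := QuotientGroup.eq.1 c1
    have c5 := P.mul_mem (hh g⁻¹) (P.inv_mem (hh g'⁻¹))
    refine QuotientGroup.eq.2 ⟨c4, _, c5, h2 _ c5 _ c4 (g'⁻¹ • x) ?_⟩
    rw [mul_smul, smul_inv_smul, e g⁻¹, e g'⁻¹, c3, mul_smul, inv_smul_smul]
  have : Finite (M ⧸ imitGroup K0 P r) := by
    refine Finite.of_injective (fun q : M ⧸ imitGroup K0 P r => col q.out) fun q q' hq => ?_
    simpa using hcol _ _ hq
  exact Subgroup.finiteIndex_of_finite_quotient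

def Sep (S : Set M) : Prop :=
  ∀ g ∉ S, ∃ L : Subgroup M, L.FiniteIndex ∧ L.Normal ∧ ∀ l ∈ L, g * l ∉ S

theorem sep_of {S : Set M} (h : ∀ g ∉ S, ∃ L : Subgroup M, L.FiniteIndex ∧ ∀ l ∈ L, g * l ∉ S) :
    Sep S := by
  intro g hg
  obtain ⟨L, h1, h2⟩ := h g hg
  exact ⟨L.normalCore, inferInstance, inferInstance, fun l hl => h2 l (L.normalCore_le hl)⟩

theorem sep_union {ι : Type*} [Finite ι] {S : Set M} (S0 : ι → Set M) (a b : ι → M)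
    (h0 : ∀ i, Sep (S0 i)) (hS : ∀ g, g ∈ S ↔ ∃ i, a i * g * b i ∈ S0 i) : Sep S := by
  intro g hg
  choose L h1 h2 h3 using fun i => h0 i (a i * g * b i) fun k => hg ((hS g).2 ⟨i, k⟩)
  refine ⟨⨅ i, L i, Subgroup.finiteIndex_iInf h1, Subgroup.normal_iInf_normal h2, fun l hl k => ?_⟩
  obtain ⟨i, k⟩ := (hS _).1 k
  refine h3 i _ ((h2 i).conj_mem l (Subgroup.mem_iInf.1 hl i) (b i)⁻¹) ?_
  convert k using 1
  group

def Good (X : SimpleGraph V) (P : Subgroup M) : Prop :=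
  ∀ x y : V, ∃ C, x ∈ C ∧ y ∈ C ∧ IsConvexIn X C ∧ (∀ h ∈ P, ∀ c ∈ C, h • c ∈ C) ∧ Cofin P C

theorem sep_good (hX : IsMedianGraph X) (hG : ∀ (g : M) u v, X.Adj u v → X.Adj (g • u) (g • v))
    (hN : ActsSpecially X (⊤ : Subgroup M)) (hP : Good X P) : Sep (P : Set M) := by
  refine sep_of fun g hg => ?_
  obtain ⟨x⟩ := hX.1.nonempty
  obtain ⟨C, c1, c2, c3, c4, c5⟩ := hP x (g • x)
  obtain ⟨r, r1, r2, -, r4⟩ := imit hX hG hN le_top c1 c3 c4 c5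
  refine ⟨imitGroup ⊤ P r, imit_fi x r2 c5 r4, fun l hl k => hg ?_⟩
  have h1 : g * l ∈ imitGroup ⊤ P r :=
    ⟨trivial, _, k, r4 _ k _ trivial x (by rw [r1 _ (c4 _ k _ c1), r1 _ c1])⟩
  obtain ⟨-, a, a1, a2⟩ := (Subgroup.mul_mem_cancel_right _ hl).1 h1
  have := a2 x
  rw [r1 _ c2, r1 _ c1, ← inv_smul_eq_iff, smul_smul] at this
  rw [← inv_mul_eq_one.1 (hN.1 _ trivial _ this)]
  exact a1

theorem dcs (hX : IsMedianGraph X) (hG : ∀ (g : M) u v, X.Adj u v → X.Adj (g • u) (g • v))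
    (hN : ActsSpecially X (⊤ : Subgroup M)) {P' : Subgroup M} (hP : Good X P) (hP' : Good X P') :
    Sep {g | ∃ a ∈ P, ∃ b ∈ P', g = a * b} := by
  obtain ⟨x⟩ := hX.1.nonempty
  obtain ⟨C, c1, -, c3, c4, c5⟩ := hP x x
  obtain ⟨D, d1, -, d3, d4, d5⟩ := hP' x x
  obtain ⟨s, s1, s2, s3, s4⟩ := imit hX hG hN le_top d1 d3 d4 d5
  have fi' := imit_fi x s2 d5 s4
  have mem' : ∀ g, g ∈ imitGroup ⊤ P' s ↔ g ∈ ⊤ ∧ ∃ k ∈ P', ∀ v, s (g • v) = k • s v :=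
    fun g => Iff.rfl
  generalize imitGroup ⊤ P' s = K' at fi' mem'
  have le' : P' ≤ K' := fun k hk =>
    (mem' k).2 ⟨trivial, k, hk, s4 _ hk _ trivial x (by rw [s1 _ (d4 _ hk _ d1), s1 _ d1])⟩
  have c4' : ∀ h ∈ P ⊓ K', ∀ c ∈ C, h • c ∈ C := fun h hh => c4 h hh.1
  obtain ⟨r, r1, r2, r3, r4⟩ := imit hX hG (special_mono le_top hN) inf_le_right c1 c3 c4'
    (cofin_inf c5 K')
  have fi := imit_fi x r2 (cofin_inf c5 K') r4
  have ru : ∀ u v, RU (Cp (Rl X (⊤ : Subgroup M) D (u, v))) := fun u v =>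
    ru_cp (rl_ru hN _) (by rw [rl_flip]; exact rl_ru hN _)
  have gsq : ∀ a b c d, IsSquare X a b c d → Rl X (⊤ : Subgroup M) D (a, b) (s a) (s b) →
      Rl X (⊤ : Subgroup M) D (d, c) (s d) (s c) := by
    intro a b c d h k
    obtain ⟨w, w1, w2⟩ := sq_cp (sq4_symm (rl_sq4 hX hN d3 h)) _ _ _ (s3 a d h.2.2.2.1.symm) k
    have := s3 b c h.2.1
    rw [rl_congr (par_sq (sq_rot h))] at this
    rw [← rl_congr (par_sq h), ru _ _ _ _ _ this w2]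
    exact w1
  have gtr : ∀ g ∈ K', ∀ a b, Rl X (⊤ : Subgroup M) D (a, b) (s a) (s b) →
      Rl X (⊤ : Subgroup M) D (g • a, g • b) (s (g • a)) (s (g • b)) := by
    intro g hg a b k
    obtain ⟨-, l, l1, l2⟩ := (mem' g).1 hg
    rw [l2, l2, ← rl_congr (par_mem (Subgroup.mem_top g) a b)]
    exact rl_mem hG le_top d4 l1 k
  have gpar : ∀ e f, Par X K' e f → (Rl X (⊤ : Subgroup M) D e (s e.1) (s e.2) ↔
      Rl X (⊤ : Subgroup M) D f (s f.1) (s f.2)) := by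
    intro e f h
    induction h with
    | rel e f h =>
      rcases h with h | ⟨n, hn, rfl⟩
      · exact ⟨gsq _ _ _ _ h, gsq _ _ _ _ (sq_rev (sq_rot (sq_rot h)))⟩
      · exact ⟨gtr n hn _ _, fun k => by simpa using gtr n⁻¹ (K'.inv_mem hn) _ _ k⟩
    | refl => rfl
    | symm _ _ _ ih => exact ih.symm
    | trans _ _ _ _ _ ih1 ih2 => exact ih1.trans ih2
  have stay : ∀ u v a b, u ∈ D → v ∈ D → X.Adj u v → Rl X K' C (u, v) a b → a ∈ D → b ∈ D := by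
    intro u v a b hu hv huv h ha
    have := (gpar _ _ h.2.2.2).2 (by
      show Rl X ⊤ D (u, v) (s u) (s v)
      rw [s1 u hu, s1 v hv]; exact ⟨hu, hv, huv, par_refl _⟩)
    obtain ⟨-, t2, t3, t4⟩ : Rl X ⊤ D (a, b) (s a) (s b) := this
    rw [s1 a ha] at t3 t4
    rw [← hN.2.1 _ _ _ t3 h.2.2.1 t4]; exact t2
  have rD : ∀ v ∈ D, r v ∈ D := by
    refine convex_ind hX.1 d3 d1 (by rw [r1 x c1]; exact d1) fun u v hu hv huv ih => ?_
    rcases r3 u v huv with h | ⟨-, -, h⟩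
    · exact stay u v _ _ hu hv huv h ih
    · generalize r v = y at h
      induction h using ReflTransGen.head_induction_on with
      | refl => exact ih
      | head h1 _ ih2 => exact stay v u _ _ hv hu huv.symm (by rw [← rl_flip]; exact h1) ih2
  have sepP' := sep_good hX hG hN hP'
  let S0 : Set M := {g | g ∈ K' ∧ ∃ k ∈ P ⊓ K', (∀ v, r (g • v) = k • r v) ∧ k⁻¹ * g ∈ P'}
  have uniq : ∀ k l : M, k • x = l • x → k = l := fun k l h => by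
    rw [← inv_smul_eq_iff, smul_smul] at h
    exact (inv_mul_eq_one.1 (hN.1 _ trivial _ h)).symm
  have sep0 : Sep S0 := by
    refine sep_of fun g hg => ?_
    by_cases hK : g ∈ imitGroup K' (P ⊓ K') r
    · obtain ⟨g1, k, k1, k2⟩ := hK
      obtain ⟨L, l1, l2, l3⟩ := sepP' (k⁻¹ * g) fun h => hg ⟨g1, k, k1, k2, h⟩
      have fi2 := imit_fi x r2 (cofin_inf (cofin_inf c5 K') L) fun k hk => r4 k hk.1
      refine ⟨imitGroup K' (P ⊓ K' ⊓ L) r ⊓ L, inferInstance, ?_⟩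
      rintro l ⟨⟨-, m, m1, m2⟩, m3⟩ ⟨-, n, -, n2, n3⟩
      have : n = k * m := uniq _ _ (by
        have := n2 x
        rw [mul_smul, k2, m2, r1 x c1] at this
        rw [← this, mul_smul])
      subst this
      refine l3 _ (L.mul_mem (l2.conj_mem _ (L.inv_mem m1.2) (k⁻¹ * g)⁻¹) m3) ?_
      have e : k⁻¹ * g * ((k⁻¹ * g)⁻¹ * m⁻¹ * (k⁻¹ * g)⁻¹⁻¹ * l) = (k * m)⁻¹ * (g * l) := by group
      rw [e]
      exact n3
    · refine ⟨_, fi, fun l hl k => hK ?_⟩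
      obtain ⟨k1, n, n1, n2, -⟩ := k
      exact (Subgroup.mul_mem_cancel_right _ hl).1 ⟨k1, n, n1, n2⟩
  obtain ⟨T, T1, T2⟩ := exists_reps K' (P : Set M)
  obtain ⟨U, U1, U2⟩ := exists_reps (imitGroup K' (P ⊓ K') r) (P' : Set M)
  refine sep_union (ι := T × U) (fun _ => S0) (fun i => i.1.1⁻¹) (fun i => i.2.1)
    (fun _ => sep0) fun g => ⟨?_, ?_⟩
  · rintro ⟨a, ha, b, hb, rfl⟩
    obtain ⟨t, t1, t2⟩ := T2 a ha
    obtain ⟨u, u1, u2⟩ := U2 b⁻¹ (P'.inv_mem hb)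
    have a1 : t⁻¹ * a ∈ P ⊓ K' := ⟨P.mul_mem (P.inv_mem (T1 t t1)) ha, t2⟩
    have b1 : b * u ∈ P' := P'.mul_mem hb (U1 u u1)
    obtain ⟨b2, k, k1, k2⟩ : b * u ∈ imitGroup K' (P ⊓ K') r := by
      simpa using Subgroup.inv_mem _ u2
    have a2 := r4 _ a1 _ t2 x (by rw [r1 _ (c4' _ a1 _ c1), r1 _ c1])
    have k3 : k ∈ P' := by
      obtain ⟨-, l, l1, l2⟩ := (mem' k).1 k1.2
      have e1 := rD _ (d4 _ b1 _ d1)
      rw [k2, r1 x c1] at e1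
      have e2 := l2 x
      rw [s1 _ e1, s1 _ d1] at e2
      rw [uniq _ _ e2]; exact l1
    refine ⟨(⟨t, t1⟩, ⟨u, u1⟩), ?_⟩
    have e : t⁻¹ * (a * b) * u = (t⁻¹ * a) * (b * u) := by group
    show t⁻¹ * (a * b) * u ∈ S0
    rw [e]
    refine ⟨K'.mul_mem t2 b2, t⁻¹ * a * k, Subgroup.mul_mem _ a1 k1, fun v => ?_, ?_⟩
    · rw [mul_smul, a2, k2, smul_smul]
    · convert P'.mul_mem (P'.inv_mem k3) b1 using 1
      group
  · rintro ⟨⟨⟨t, t1⟩, ⟨u, u1⟩⟩, -, k, k1, -, k3⟩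
    refine ⟨t * k, P.mul_mem (T1 t t1) k1.1, _, P'.mul_mem k3 (P'.inv_mem (U1 u u1)), ?_⟩
    group

end Pool.Agent.Lib.MP_a112e0_al
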