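import Mathlib

/-! Median graphs (one-skeleta of CAT(0) cube complexes), convex sets, special actions. -/

namespace Pool.Agent.Lib.MP_a112e0_al

variable {V : Type*}

/-- `m` lies on a geodesic from `x` to `y` -/
def Btw (X : SimpleGraph V) (x m y : V) : Prop := X.dist x m + X.dist m y = X.dist x y

/-- connected, and any three vertices have a unique median -/
def IsMedianGraph (X : SimpleGraph V) : Prop :=
  X.Connected ∧ ∀ x y z, ∃! m, Btw X x m y ∧ Btw X y m z ∧ Btw X x m z

/-- `C` contains every geodesic between two of its points -/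
def IsConvexIn (X : SimpleGraph V) (C : Set V) : Prop :=
  ∀ x ∈ C, ∀ y ∈ C, ∀ m, Btw X x m y → m ∈ C

/-- `a, b, c, d` are the four corners of a square, in cyclic order -/
def IsSquare (X : SimpleGraph V) (a b c d : V) : Prop :=
  X.Adj a b ∧ X.Adj b c ∧ X.Adj c d ∧ X.Adj d a ∧ a ≠ c ∧ b ≠ d

variable {G : Type*} [Group G] [MulAction G V]

/-- oriented edges are related if they are opposite sides of a square, or translates by `N` -/
def EdgeStep (X : SimpleGraph V) (N : Subgroup G) (e f : V × V) : Prop :=
  IsSquare X e.1 e.2 f.2 f.1 ∨ ∃ n ∈ N, f = (n • e.1, n • e.2)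

/-- the oriented edges are dual to the same oriented hyperplane of the quotient by `N` -/
def Par (X : SimpleGraph V) (N : Subgroup G) : V × V → V × V → Prop :=
  Relation.EqvGen (EdgeStep X N)

/-- `N` acts freely on vertices and the quotient is special: hyperplanes do not self-intersect or
directly self-osculate (second clause) and do not inter-osculate (third clause) -/
def ActsSpecially (X : SimpleGraph V) (N : Subgroup G) : Prop :=
  (∀ n ∈ N, ∀ v : V, n • v = v → n = 1) ∧
  (∀ v a b, X.Adj v a → X.Adj v b → Par X N (v, a) (v, b) → a = b) ∧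
  (∀ v a b p q r s, X.Adj v a → X.Adj v b → a ≠ b → IsSquare X p q r s →
    Par X N (v, a) (p, q) → Par X N (v, b) (p, s) → ∃ w, IsSquare X v a w b)

/-- `H` is a retract of a finite index subgroup of `G` that contains it -/
def IsVirtualRetract (H : Subgroup G) : Prop :=
  ∃ K : Subgroup G, K.FiniteIndex ∧ ∃ hHK : H ≤ K, ∃ ρ : K →* H, ∀ h : H, ρ ⟨h, hHK h.2⟩ = h

end Pool.Agent.Lib.MP_a112e0_al
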