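import Pool.Agent.Lib.MP_a112e0_al.Defs

/-! Hyperbolic graphs and quasiconvex sets. -/

namespace Pool.Agent.Lib.MP_a112e0_al

variable {α : Type*}

/-- Gromov's four point condition for the graph metric -/
def IsHyperbolicGraph (Γ : SimpleGraph α) : Prop :=
  ∃ δ : ℕ, ∀ x y z w,
    Γ.dist x y + Γ.dist z w ≤ max (Γ.dist x z + Γ.dist y w) (Γ.dist x w + Γ.dist y z) + δ

/-- geodesics between points of `T` stay within a bounded distance of `T` -/
def IsQuasiconvexIn (Γ : SimpleGraph α) (T : Set α) : Prop :=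
  ∃ κ : ℕ, ∀ a ∈ T, ∀ b ∈ T, ∀ m, Btw Γ a m b → ∃ t ∈ T, Γ.dist m t ≤ κ

end Pool.Agent.Lib.MP_a112e0_al
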