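import Pool.Agent.Lib.MP_a112e0_al.Imit

/-! The median graph dual to an invariant family of walls (Sageev). -/

namespace Pool.Agent.Lib.MP_a112e0_al
open SimpleGraph Pointwise

structure Walls (G Ω : Type*) [Group G] [MulAction G Ω] where
  W : Set (Set Ω)
  compl : ∀ A ∈ W, Aᶜ ∈ W
  fin : ∀ a b, {A | A ∈ W ∧ a ∈ A ∧ b ∉ A}.Finite
  inv : ∀ (g : G), ∀ A ∈ W, g • A ∈ W
  pt : Ω

variable {G Ω : Type*} [Group G] [MulAction G Ω]

@[ext] structure Vx (𝒲 : Walls G Ω) where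
  s : Set (Set Ω)
  sub : s ⊆ 𝒲.W
  tot : ∀ A ∈ 𝒲.W, A ∈ s ∨ Aᶜ ∈ s
  int : ∀ A ∈ s, ∀ B ∈ s, (A ∩ B).Nonempty
  fin : ∀ a, {A | A ∈ s ∧ a ∉ A}.Finite

variable {𝒲 : Walls G Ω}

def pr (𝒲 : Walls G Ω) (a : Ω) : Vx 𝒲 where
  s := {A | A ∈ 𝒲.W ∧ a ∈ A}
  sub := fun _ h => h.1
  tot := fun A h => (em (a ∈ A)).imp (fun k => ⟨h, k⟩) fun k => ⟨𝒲.compl A h, k⟩
  int := fun _ h _ k => ⟨a, h.2, k.2⟩
  fin := fun b => (𝒲.fin a b).subset fun _ h => ⟨h.1.1, h.1.2, h.2⟩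

theorem Vx.not_both (σ : Vx 𝒲) {A : Set Ω} (h : A ∈ σ.s) : Aᶜ ∉ σ.s := fun k => by
  obtain ⟨a, h1, h2⟩ := σ.int _ h _ k
  exact h2 h1

theorem Vx.compl_mem (σ : Vx 𝒲) {A : Set Ω} (h : A ∈ 𝒲.W) (k : A ∉ σ.s) : Aᶜ ∈ σ.s :=
  (σ.tot A h).resolve_left k

def Df (σ τ : Vx 𝒲) : Set (Set Ω) := σ.s \ τ.s

theorem df_compl {σ τ : Vx 𝒲} {A : Set Ω} (h : A ∈ Df σ τ) : Aᶜ ∈ Df τ σ :=
  ⟨τ.compl_mem (σ.sub h.1) h.2, σ.not_both h.1⟩

theorem df_image (σ τ : Vx 𝒲) : Df τ σ = compl '' Df σ τ := by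
  ext A
  exact ⟨fun h => ⟨Aᶜ, df_compl h, compl_compl A⟩, fun ⟨B, h, k⟩ => k ▸ df_compl h⟩

theorem df_single {σ τ : Vx 𝒲} {A : Set Ω} (h : Df σ τ = {A}) : Df τ σ = {Aᶜ} := by
  rw [df_image, h, Set.image_singleton]

theorem df_finite (σ τ : Vx 𝒲) : (Df σ τ).Finite := by
  refine ((σ.fin 𝒲.pt).union ((τ.fin 𝒲.pt).image compl)).subset fun A h => ?_
  by_cases k : 𝒲.pt ∈ A
  · exact Or.inr ⟨Aᶜ, ⟨(df_compl h).1, fun e => e k⟩, compl_compl A⟩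
  · exact Or.inl ⟨h.1, k⟩

theorem df_empty {σ τ : Vx 𝒲} (h : Df σ τ = ∅) : σ = τ := by
  have h2 : Df τ σ = ∅ := by rw [df_image, h, Set.image_empty]
  exact Vx.ext (Set.Subset.antisymm (Set.sdiff_eq_empty.1 h) (Set.sdiff_eq_empty.1 h2))

theorem df_tri (σ μ τ : Vx 𝒲) : Df σ τ ⊆ Df σ μ ∪ Df μ τ := fun A h =>
  (em (A ∈ μ.s)).elim (fun k => Or.inr ⟨k, h.2⟩) fun k => Or.inl ⟨h.1, k⟩

def flipV (σ : Vx 𝒲) (A : Set Ω) (hA : A ∈ σ.s) (hne : Aᶜ.Nonempty)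
    (h : ∀ B ∈ σ.s, B ≠ A → (Aᶜ ∩ B).Nonempty) : Vx 𝒲 where
  s := insert Aᶜ (σ.s \ {A})
  sub := by
    rintro B (rfl | hB)
    · exact 𝒲.compl A (σ.sub hA)
    · exact σ.sub hB.1
  tot := by
    intro B hB
    by_cases e : B = A
    · subst e; exact Or.inr (Or.inl rfl)
    by_cases e' : B = Aᶜ
    · exact Or.inl (Or.inl e')
    refine (σ.tot B hB).imp (fun k => Or.inr ⟨k, e⟩) fun k => Or.inr ⟨k, fun l => e' ?_⟩
    rw [← Set.mem_singleton_iff.1 l, compl_compl]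
  int := by
    rintro B (rfl | hB) C (rfl | hC)
    · simpa using hne
    · exact h C hC.1 hC.2
    · rw [Set.inter_comm]; exact h B hB.1 hB.2
    · exact σ.int B hB.1 C hC.1
  fin := fun a => ((σ.fin a).insert Aᶜ).subset <| by
    rintro B ⟨rfl | hB, k⟩
    · exact Or.inl rfl
    · exact Or.inr ⟨hB.1, k⟩

theorem not_mem_flip (σ : Vx 𝒲) (A : Set Ω) (hA hne h) : A ∉ (flipV σ A hA hne h).s := by
  rintro (k | k)
  · exact σ.not_both hA (k ▸ hA)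
  · exact k.2 rfl

theorem df_flip (σ : Vx 𝒲) (A : Set Ω) (hA hne h) : Df σ (flipV σ A hA hne h) = {A} := by
  ext B
  constructor
  · rintro ⟨h1, h2⟩
    by_contra k
    exact h2 (Or.inr ⟨h1, k⟩)
  · rintro rfl
    exact ⟨hA, not_mem_flip _ _ _ _ _⟩

def YG (𝒲 : Walls G Ω) : SimpleGraph (Vx 𝒲) where
  Adj σ τ := ∃ A, Df σ τ = {A}
  symm := ⟨fun _ _ ⟨_, h⟩ => ⟨_, df_single h⟩⟩
  loopless := ⟨fun σ ⟨A, h⟩ => by
    have : A ∈ Df σ σ := h ▸ rfl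
    exact this.2 this.1⟩

theorem exists_walk (τ : Vx 𝒲) : ∀ (n : ℕ) (σ : Vx 𝒲), (Df σ τ).ncard = n →
    ∃ p : (YG 𝒲).Walk σ τ, p.length = n := by
  intro n
  induction n with
  | zero =>
    intro σ h
    rw [df_empty ((Set.ncard_eq_zero (df_finite _ _)).1 h)]
    exact ⟨Walk.nil, rfl⟩
  | succ n ih =>
    intro σ h
    obtain ⟨A, hA, hmin⟩ := (df_finite σ τ).exists_minimal
      (Set.nonempty_of_ncard_ne_zero (by omega))
    have hc := (df_compl hA).1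
    have h1 : Aᶜ.Nonempty := by simpa using τ.int _ hc _ hc
    have h2 : ∀ B ∈ σ.s, B ≠ A → (Aᶜ ∩ B).Nonempty := by
      intro B hB hne
      by_cases k : B ∈ τ.s
      · exact τ.int _ hc _ k
      · by_contra e
        have sub : B ⊆ A := fun x hx => by
          by_contra l
          exact e ⟨x, l, hx⟩
        exact hne (Set.Subset.antisymm sub (hmin ⟨hB, k⟩ sub))
    have e : Df (flipV σ A hA.1 h1 h2) τ = Df σ τ \ {A} := by
      ext B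
      constructor
      · rintro ⟨rfl | k, l⟩
        · exact (l hc).elim
        · exact ⟨⟨k.1, l⟩, k.2⟩
      · rintro ⟨⟨k, l⟩, m⟩
        exact ⟨Or.inr ⟨k, m⟩, l⟩
    obtain ⟨p, hp⟩ := ih (flipV σ A hA.1 h1 h2) (by
      rw [e, Set.ncard_sdiff_singleton_of_mem hA]; omega)
    exact ⟨Walk.cons ⟨A, df_flip _ _ _ _ _⟩ p, by simp [hp]⟩

theorem yg_conn : (YG 𝒲).Connected :=
  have : Nonempty (Vx 𝒲) := ⟨pr 𝒲 𝒲.pt⟩
  ⟨fun σ τ => ⟨(exists_walk τ _ σ rfl).choose⟩⟩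

theorem yg_dist (σ τ : Vx 𝒲) : (YG 𝒲).dist σ τ = (Df σ τ).ncard := by
  obtain ⟨p, hp⟩ := exists_walk τ _ σ rfl
  refine le_antisymm (hp ▸ dist_le p) ?_
  obtain ⟨q, hq⟩ := yg_conn.exists_walk_length_eq_dist σ τ
  rw [← hq]
  clear hq hp p
  induction q with
  | nil => simp [Df]
  | @cons a b c h q ih =>
    obtain ⟨A, h⟩ := h
    have := (Set.ncard_le_ncard (df_tri a b c) ((df_finite _ _).union (df_finite _ _))).trans
      (Set.ncard_union_le _ _)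
    rw [h, Set.ncard_singleton] at this
    simp only [Walk.length_cons]
    omega

theorem btw_iff (σ μ τ : Vx 𝒲) : Btw (YG 𝒲) σ μ τ ↔ Df σ τ = Df σ μ ∪ Df μ τ := by
  have dj : Disjoint (Df σ μ) (Df μ τ) := Set.disjoint_left.2 fun A h k => h.2 k.1
  unfold Btw
  rw [yg_dist, yg_dist, yg_dist, ← Set.ncard_union_eq dj (df_finite _ _) (df_finite _ _)]
  exact ⟨fun h => Set.eq_of_subset_of_ncard_le (df_tri _ _ _) h.le
    ((df_finite _ _).union (df_finite _ _)), fun h => by rw [h]⟩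

theorem btw_iff' (σ μ τ : Vx 𝒲) : Btw (YG 𝒲) σ μ τ ↔ μ.s ⊆ σ.s ∪ τ.s := by
  rw [btw_iff]
  constructor
  · intro h A hA
    by_cases k : A ∈ τ.s
    · exact Or.inr k
    · have : A ∈ Df σ τ := h ▸ Or.inr ⟨hA, k⟩
      exact Or.inl this.1
  · intro h
    refine Set.Subset.antisymm (df_tri _ _ _) ?_
    rintro A (k | k)
    · have := df_compl k
      refine ⟨k.1, fun l => τ.not_both l ((h this.1).resolve_left this.2)⟩
    · exact ⟨(h k.1).resolve_right k.2, k.2⟩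

theorem yg_median : IsMedianGraph (YG 𝒲) := by
  refine ⟨yg_conn, fun x y z => ?_⟩
  let m : Vx 𝒲 :=
    { s := (x.s ∪ y.s) ∩ (y.s ∪ z.s) ∩ (x.s ∪ z.s)
      sub := fun A h => h.2.elim (fun k => x.sub k) fun k => z.sub k
      tot := by
        intro A hA
        have := x.tot A hA
        have := y.tot A hA
        have := z.tot A hA
        simp only [Set.mem_inter_iff, Set.mem_union]
        tauto
      int := by
        intro A hA B hB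
        have := x.int A
        have := fun h => y.int A h B
        have := fun h => z.int A h B
        have := fun h => x.int A h B
        simp only [Set.mem_inter_iff, Set.mem_union] at hA hB
        tauto
      fin := fun a => ((x.fin a).union (z.fin a)).subset fun A h =>
        h.1.2.imp (fun k => ⟨k, h.2⟩) fun k => ⟨k, h.2⟩ }
  refine ⟨m, ?_, ?_⟩
  · simp only [btw_iff']
    exact ⟨fun A h => h.1.1, fun A h => h.1.2, fun A h => h.2⟩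
  · intro m' h
    simp only [btw_iff'] at h
    exact df_empty (Set.sdiff_eq_empty.2 fun A k => ⟨⟨h.1 k, h.2.1 k⟩, h.2.2 k⟩)

theorem adj_eq {a b b' : Vx 𝒲} {A : Set Ω} (h : Df a b = {A}) (h' : Df a b' = {A}) : b = b' := by
  refine df_empty (Set.eq_empty_of_forall_notMem fun E hE => ?_)
  have a1 : A ∈ Df a b := h ▸ rfl
  have a2 : A ∈ Df a b' := h' ▸ rfl
  by_cases k : E ∈ a.s
  · have : E ∈ Df a b' := ⟨k, hE.2⟩
    rw [h'] at this
    exact a1.2 (this ▸ hE.1)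
  · have : Eᶜ ∈ Df a b := df_compl ⟨hE.1, k⟩
    rw [h] at this
    exact a2.2 (this ▸ (df_compl hE).1)

theorem sq_btw {V : Type*} {X : SimpleGraph V} (hX : IsMedianGraph X) {a b c d : V}
    (h : IsSquare X a b c d) : Btw X a b c := by
  unfold Btw
  have e1 := dist_adj h.1
  have e2 := dist_adj h.2.1
  have p : X.dist a c ≠ 0 := fun k => h.2.2.2.2.1 (hX.1.dist_eq_zero_iff.1 k)
  rcases bip hX a h.2.1 with k | k <;> omega

theorem sq_wall {a b c d : Vx 𝒲} (h : IsSquare (YG 𝒲) a b c d) {A : Set Ω} (hA : Df a b = {A}) :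
    Df d c = {A} := by
  obtain ⟨B, hB⟩ := h.2.2.2.1.symm
  obtain ⟨E, hE⟩ := h.2.2.1.symm
  have h1 := (btw_iff _ _ _).1 (sq_btw yg_median h)
  have h2 := (btw_iff _ _ _).1 (sq_btw yg_median (sq_rev (sq_rot (sq_rot (sq_rot h)))))
  have : A ∈ Df a d ∪ Df d c := by rw [← h2, h1, hA]; exact Or.inl rfl
  rw [hB, hE] at this
  rcases this with k | k
  · exact (h.2.2.2.2.2 (adj_eq hA (k ▸ hB))).elim
  · exact k ▸ hE

def Cross (A B : Set Ω) : Prop :=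
  (A ∩ B).Nonempty ∧ (Aᶜ ∩ B).Nonempty ∧ (A ∩ Bᶜ).Nonempty ∧ (Aᶜ ∩ Bᶜ).Nonempty

theorem sq_cross {a b c d : Vx 𝒲} (h : IsSquare (YG 𝒲) a b c d) {A B : Set Ω}
    (hA : Df a b = {A}) (hB : Df a d = {B}) : Cross A B := by
  have a1 : A ∈ Df a b := hA ▸ rfl
  have a2 : A ∈ Df d c := sq_wall h hA ▸ rfl
  have b1 : B ∈ Df a d := hB ▸ rfl
  have b2 : B ∈ Df b c := sq_wall (sq_rev (sq_rot (sq_rot (sq_rot h)))) hB ▸ rfl
  exact ⟨a.int _ a1.1 _ b1.1, b.int _ (df_compl a1).1 _ b2.1, d.int _ a2.1 _ (df_compl b1).1,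
    c.int _ (df_compl a2).1 _ (df_compl b2).1⟩

theorem mk_square {σ a b : Vx 𝒲} {A B : Set Ω} (hA : Df σ a = {A}) (hB : Df σ b = {B})
    (hab : a ≠ b) (h : (Aᶜ ∩ Bᶜ).Nonempty) : ∃ w, IsSquare (YG 𝒲) σ a w b := by
  have a1 : A ∈ Df σ a := hA ▸ rfl
  have b1 : B ∈ Df σ b := hB ▸ rfl
  have ne : A ≠ B := fun e => hab (adj_eq hA (e ▸ hB))
  have ha : ∀ E ∈ σ.s, E ≠ A → E ∈ a.s := fun E h1 h2 => by
    by_contra k
    have : E ∈ Df σ a := ⟨h1, k⟩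
    rw [hA] at this
    exact h2 this
  have hb : ∀ E ∈ σ.s, E ≠ B → E ∈ b.s := fun E h1 h2 => by
    by_contra k
    have : E ∈ Df σ b := ⟨h1, k⟩
    rw [hB] at this
    exact h2 this
  have h0 := ha B b1.1 ne.symm
  have h1 : Bᶜ.Nonempty := h.mono Set.inter_subset_right
  have h2 : ∀ E ∈ a.s, E ≠ B → (Bᶜ ∩ E).Nonempty := by
    intro E e1 e2
    by_cases k : E ∈ σ.s
    · exact b.int _ (df_compl b1).1 _ (hb E k e2)
    · have : E ∈ Df a σ := ⟨e1, k⟩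
      rw [df_single hA] at this
      rw [this, Set.inter_comm]; exact h
  refine ⟨flipV a B h0 h1 h2, ⟨A, hA⟩, ⟨B, df_flip _ _ _ _ _⟩, (YG 𝒲).adj_symm ⟨A, ?_⟩,
    (YG 𝒲).adj_symm ⟨B, hB⟩, fun e => not_mem_flip a B h0 h1 h2 (e ▸ b1.1), hab⟩
  ext E
  constructor
  · rintro ⟨e1, e2⟩
    by_contra k
    have e3 : E ∈ σ.s := by
      by_contra l
      have : E ∈ Df b σ := ⟨e1, l⟩
      rw [df_single hB] at this
      exact e2 (Or.inl this)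
    exact e2 (Or.inr ⟨ha E e3 k, fun l => b1.2 (l ▸ e1)⟩)
  · rintro rfl
    refine ⟨hb _ a1.1 ne, ?_⟩
    rintro (k | k)
    · exact σ.not_both b1.1 (k ▸ a1.1)
    · exact a1.2 k.1

instance : MulAction G (Vx 𝒲) where
  smul g σ :=
    { s := {A | g⁻¹ • A ∈ σ.s}
      sub := fun A h => by simpa using 𝒲.inv g _ (σ.sub h)
      tot := fun A h => by
        have := σ.tot _ (𝒲.inv g⁻¹ A h)
        rwa [← Set.smul_set_compl] at this
      int := fun A h B k => by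
        have := σ.int _ h _ k
        rwa [← Set.smul_set_inter, Set.smul_set_nonempty] at this
      fin := fun a => ((σ.fin (g⁻¹ • a)).image (g • ·)).subset fun A h =>
        ⟨g⁻¹ • A, ⟨h.1, fun k => h.2 (Set.smul_mem_smul_set_iff.1 k)⟩, smul_inv_smul g A⟩ }
  one_smul σ := Vx.ext (by
    ext A
    show (1 : G)⁻¹ • A ∈ σ.s ↔ _
    simp)
  mul_smul g h σ := Vx.ext (by
    ext A
    show (g * h)⁻¹ • A ∈ σ.s ↔ h⁻¹ • g⁻¹ • A ∈ σ.s
    rw [mul_inv_rev, mul_smul])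

theorem mem_smul_vx {g : G} {σ : Vx 𝒲} {A : Set Ω} : A ∈ (g • σ).s ↔ g⁻¹ • A ∈ σ.s := Iff.rfl

theorem df_smul (g : G) {σ τ : Vx 𝒲} {A : Set Ω} (h : Df σ τ = {A}) :
    Df (g • σ) (g • τ) = {g • A} := by
  ext B
  have : B ∈ Df (g • σ) (g • τ) ↔ g⁻¹ • B ∈ Df σ τ := Iff.rfl
  rw [this, h, Set.mem_singleton_iff, Set.mem_singleton_iff, inv_smul_eq_iff]

theorem yg_smul (g : G) (σ τ : Vx 𝒲) (h : (YG 𝒲).Adj σ τ) : (YG 𝒲).Adj (g • σ) (g • τ) :=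
  let ⟨_, h⟩ := h
  ⟨_, df_smul g h⟩

theorem par_wall {N : Subgroup G} {e f : Vx 𝒲 × Vx 𝒲} (h : Par (YG 𝒲) N e f) :
    (∀ A, Df e.1 e.2 = {A} → ∃ n ∈ N, Df f.1 f.2 = {n • A}) ∧
      ∀ A, Df f.1 f.2 = {A} → ∃ n ∈ N, Df e.1 e.2 = {n • A} := by
  induction h with
  | rel e f h =>
    rcases h with h | ⟨n, hn, rfl⟩
    · exact ⟨fun A k => ⟨1, N.one_mem, by rw [one_smul]; exact sq_wall h k⟩, fun A k =>
        ⟨1, N.one_mem, by rw [one_smul]; exact sq_wall (sq_rev (sq_rot (sq_rot h))) k⟩⟩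
    · refine ⟨fun A k => ⟨n, hn, df_smul n k⟩, fun A k => ⟨n⁻¹, N.inv_mem hn, ?_⟩⟩
      simpa using df_smul n⁻¹ k
  | refl e => exact ⟨fun A k => ⟨1, N.one_mem, by rwa [one_smul]⟩,
      fun A k => ⟨1, N.one_mem, by rwa [one_smul]⟩⟩
  | symm _ _ _ ih => exact ih.symm
  | trans _ _ _ _ _ ih1 ih2 =>
    refine ⟨fun A k => ?_, fun A k => ?_⟩
    · obtain ⟨n, hn, k1⟩ := ih1.1 A k
      obtain ⟨m, hm, k2⟩ := ih2.1 _ k1
      exact ⟨m * n, N.mul_mem hm hn, by rwa [mul_smul]⟩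
    · obtain ⟨n, hn, k1⟩ := ih2.2 A k
      obtain ⟨m, hm, k2⟩ := ih1.2 _ k1
      exact ⟨m * n, N.mul_mem hm hn, by rwa [mul_smul]⟩

/-- a criterion for a special action on the dual graph -/
theorem special_of {N : Subgroup G} (h1 : ∀ n ∈ N, ∀ σ : Vx 𝒲, n • σ = σ → n = 1)
    (h2 : ∀ (σ a b : Vx 𝒲) A B, Df σ a = {A} → Df σ b = {B} → ∀ n ∈ N,
      (B = n • A → B = A) ∧ (Cross A (n • B) → Cross A B)) : ActsSpecially (YG 𝒲) N := by
  refine ⟨h1, ?_, ?_⟩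
  · rintro v a b ⟨A, hA⟩ - h
    obtain ⟨n, hn, k⟩ := (par_wall h).1 A hA
    exact adj_eq hA ((h2 v a b A _ hA k n hn).1 rfl ▸ k)
  · rintro v a b p q r s ⟨A, hA⟩ ⟨B, hB⟩ hab hs k1 k2
    obtain ⟨n, hn, l1⟩ := (par_wall k1).1 A hA
    obtain ⟨m, hm, l2⟩ := (par_wall k2).1 B hB
    have c := sq_cross hs l1 l2
    refine mk_square hA hB hab ((h2 v a b A B hA hB (n⁻¹ * m)
      (N.mul_mem (N.inv_mem hn) hm)).2 ?_).2.2.2
    have e : m • B = n • (n⁻¹ * m) • B := by rw [smul_smul, mul_inv_cancel_left]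
    rw [e] at c
    simpa only [Cross, ← Set.smul_set_compl, ← Set.smul_set_inter, Set.smul_set_nonempty] using c

end Pool.Agent.Lib.MP_a112e0_al
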