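import Pool.Agent.Lib.MP_a112e0_al.Geo
import Pool.Agent.Lib.MP_a112e0_al.Defs2

/-! Quasiconvex subgroups of virtually compact special hyperbolic groups are virtual retracts. -/

namespace Pool.Agent.Lib.MP_a112e0_al
open SimpleGraph Pointwise

variable {G Ω V : Type*} [Group G] [MulAction G Ω]
variable {Γ : SimpleGraph G} {N : Subgroup G} [MulAction N V] {X : SimpleGraph V} {π : Ω → G}
  {f : Ω → V} {δ : ℕ}

/-- `p` holds on a finite index subgroup -/
def Virt (p : G → Prop) : Prop := ∃ L : Subgroup G, L.FiniteIndex ∧ ∀ l ∈ L, p l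

theorem virt_mono {p q : G → Prop} (h : Virt p) (k : ∀ l, p l → q l) : Virt q :=
  let ⟨L, h1, h2⟩ := h
  ⟨L, h1, fun l hl => k l (h2 l hl)⟩

theorem virt_and {p q : G → Prop} (h : Virt p) (k : Virt q) : Virt fun l => p l ∧ q l := by
  obtain ⟨L, h1, h2⟩ := h
  obtain ⟨M, k1, k2⟩ := k
  exact ⟨L ⊓ M, inferInstance, fun l hl => ⟨h2 l hl.1, k2 l hl.2⟩⟩

theorem virt_all {ι : Type*} {s : Set ι} (hs : s.Finite) {p : ι → G → Prop}
    (h : ∀ i ∈ s, Virt (p i)) : Virt fun l => ∀ i ∈ s, p i l := by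
  have := hs.to_subtype
  choose L h1 h2 using fun i : s => h i.1 i.2
  exact ⟨⨅ i, L i, Subgroup.finiteIndex_iInf h1, fun l hl i hi =>
    h2 ⟨i, hi⟩ l (Subgroup.mem_iInf.1 hl _)⟩

theorem virt_sep [N.FiniteIndex] {T : Set N} (h : Sep T) {g : N} (hg : g ∉ T) :
    Virt fun l => ∃ hl : l ∈ N, g * ⟨l, hl⟩ ∉ T := by
  obtain ⟨L, h1, -, h2⟩ := h g hg
  refine ⟨L.map N.subtype, ⟨?_⟩, ?_⟩
  · rw [Subgroup.index_map_subtype]
    exact mul_ne_zero h1.1 Subgroup.FiniteIndex.index_ne_zero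
  · rintro _ ⟨l, hl, rfl⟩
    exact ⟨l.2, h2 l hl⟩

theorem Setup.rf (S : Setup Γ N X π f δ) {g : G} (hg : g ≠ 1) : Virt fun l => l ≠ g := by
  have := S.fi
  by_cases k : g ∈ N
  · obtain ⟨κ, hκ⟩ := S.qc_walls
    have q : QC Γ κ (π '' {S.walls.pt}) := by
      rintro _ ⟨_, rfl, rfl⟩ _ ⟨_, rfl, rfl⟩ m hm
      refine ⟨_, ⟨_, rfl, rfl⟩, ?_⟩
      unfold Btw at hm
      simp only [dist_self] at hm
      omega
    have gd := S.good hκ ⊥ q q ⟨_, rfl, _, rfl, by simp⟩ (by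
      intro n hn
      rw [Subgroup.mem_bot.1 hn]; simp) fun R => ⟨_, ball_finite S.conn S.lf (π S.walls.pt) R, by
        rintro p ⟨_, rfl, h⟩ -
        exact ⟨1, Subgroup.one_mem _, by simpa [dist_comm] using h⟩⟩
    refine virt_mono (virt_sep (sep_good S.med S.xinv S.sp gd) (g := ⟨g, k⟩⁻¹) ?_) ?_
    · simpa using hg
    · rintro l ⟨hl, h⟩ rfl
      exact h (by simp)
  · exact ⟨N, this, fun l hl e => k (e ▸ hl)⟩

theorem Setup.cut_cof (S : Setup Γ N X π f δ) {A : Set Ω} (hA : A ∈ S.walls.W) (R : ℕ) :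
    ∃ E : Set G, E.Finite ∧ ∀ p, Near Γ π p R A → Near Γ π p R Aᶜ →
      ∃ n ∈ (MulAction.stabilizer G A).subgroupOf N, (n : G) * p ∈ E := by
  obtain ⟨T, h1, h2⟩ := S.reps
  choose m hm using h2
  obtain ⟨E, e1, e2, e3⟩ := (Set.exists_subset_image_finite_and
    (f := fun p : G => ((m p : G) * p, (m p : G) • A)) (s := {p | A ∈ S.Cut p R})
    (p := fun t => t = (fun p : G => ((m p : G) * p, (m p : G) • A)) '' {p | A ∈ S.Cut p R})).1
    ⟨_, subset_rfl, (h1.prod (h1.biUnion fun t _ => S.cut_finite t R)).subset (by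
      rintro _ ⟨p, hp, rfl⟩
      exact ⟨hm p, Set.mem_biUnion (hm p) (S.cut_smul _ hp)⟩), rfl⟩
  refine ⟨E, e2, fun p k1 k2 => ?_⟩
  have : ((m p : G) * p, (m p : G) • A) ∈ (fun p : G => ((m p : G) * p, (m p : G) • A)) '' E := by
    rw [e3]; exact ⟨p, ⟨hA, k1, k2⟩, rfl⟩
  obtain ⟨e, k3, k4⟩ := this
  obtain ⟨k5, k6⟩ := Prod.ext_iff.1 k4
  dsimp only at k5 k6
  refine ⟨(m e)⁻¹ * m p, ?_, ?_⟩
  · rw [Subgroup.mem_subgroupOf, MulAction.mem_stabilizer_iff, Subgroup.coe_mul, mul_smul, ← k6]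
    simp
  · rw [Subgroup.coe_mul, mul_assoc, ← k5]
    simpa using k3

theorem Setup.good_stab (S : Setup Γ N X π f δ) {A : Set Ω} (hA : A ∈ S.walls.W)
    (h1 : A.Nonempty) (h2 : Aᶜ.Nonempty) : Good X ((MulAction.stabilizer G A).subgroupOf N) := by
  obtain ⟨κ, hκ⟩ := S.qc_walls
  refine S.good hκ _ (hκ A hA) (hκ _ (S.walls.compl A hA)) (S.cl_compl h1 h2) (fun n hn => ?_)
    (S.cut_cof hA)
  have : (n : G) • A = A := hn
  exact ⟨this, by rw [Set.smul_set_compl, this]⟩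

theorem Setup.virt_eq (S : Setup Γ N X π f δ) {A : Set Ω} (hA : A ∈ S.walls.W)
    (h1 : A.Nonempty) (h2 : Aᶜ.Nonempty) (B : Set Ω) : Virt fun l : G => B = l • A → B = A := by
  have := S.fi
  by_cases e : B = A
  · exact ⟨⊤, inferInstance, fun _ _ _ => e⟩
  by_cases k : ∃ n : N, B = (n : G) • A
  · obtain ⟨n, rfl⟩ := k
    refine virt_mono (virt_sep (sep_good S.med S.xinv S.sp (S.good_stab hA h1 h2)) (g := n⁻¹)
      fun h => e ?_) ?_
    · exact Subgroup.inv_mem_iff _ |>.1 h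
    · rintro l ⟨hl, h⟩ k
      refine (h ?_).elim
      show ((n : G)⁻¹ * l) • A = A
      rw [mul_smul, ← k, inv_smul_smul]
  · exact ⟨N, this, fun l hl h => (k ⟨⟨l, hl⟩, h⟩).elim⟩

theorem cross_smul (g : G) {A B : Set Ω} (h : Cross A B) : Cross (g • A) (g • B) := by
  simpa only [Cross, ← Set.smul_set_compl, ← Set.smul_set_inter, Set.smul_set_nonempty] using h

theorem Setup.virt_cross (S : Setup Γ N X π f δ) {A B : Set Ω} (hA : A ∈ S.walls.W)
    (h1 : A.Nonempty) (h2 : Aᶜ.Nonempty) (hB : B ∈ S.walls.W) :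
    Virt fun l : G => Cross A (l • B) → Cross A B := by
  have := S.fi
  by_cases e : Cross A B
  · exact ⟨⊤, inferInstance, fun _ _ _ => e⟩
  obtain ⟨κ, hκ⟩ := S.qc_walls
  obtain ⟨E, e1, e2⟩ := S.cut_cof hA (hc0 δ κ 1)
  let J : Set (Set Ω) :=
    {C | C ∈ ⋃ e ∈ E, S.Cut e (hc0 δ κ 1) ∧ Cross A C ∧ ∃ n : N, (n : G) • B = C}
  have hJ : J.Finite := (e1.biUnion fun e _ => S.cut_finite e _).subset fun C h => h.1
  have := hJ.to_subtype
  choose n hn using fun j : J => j.2.2.2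
  have sep : Sep {g : N | Cross A ((g : G) • B)} := by
    refine sep_union (ι := J) (fun j => {g | ∃ a ∈ (MulAction.stabilizer G A).subgroupOf N,
      ∃ b ∈ (MulAction.stabilizer G j.1).subgroupOf N, g = a * b}) (fun _ => 1)
      (fun j => (n j)⁻¹) (fun j => dcs S.med S.xinv S.sp (S.good_stab hA h1 h2)
        (S.good_stab (hn j ▸ S.walls.inv _ B hB) (j.2.2.1.1.mono Set.inter_subset_right)
          (j.2.2.1.2.2.1.mono Set.inter_subset_right))) fun g => ⟨fun h => ?_, ?_⟩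
    · have hC := S.walls.inv g B hB
      have h : Cross A ((g : G) • B) := h
      obtain ⟨c1, c2, c3, c4⟩ := id h
      have c5 := S.cl_compl (c1.mono Set.inter_subset_right) (c3.mono Set.inter_subset_right)
      have c6 := S.cl_compl h1 h2
      obtain ⟨p, hp⟩ := S.helly (κ := κ) (r := 1) {A, Aᶜ, (g : G) • B, ((g : G) • B)ᶜ} (by
        rintro _ (rfl | rfl | rfl | rfl)
        exacts [hκ _ hA, hκ _ (S.walls.compl _ hA), hκ _ hC, hκ _ (S.walls.compl _ hC)]) (by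
        rintro _ (rfl | rfl | rfl | rfl) _ (rfl | rfl | rfl | rfl)
        exacts [cl_of (by simpa using h1) _, c6, cl_of c1 _, cl_of c3 _,
          cl_symm c6, cl_of (by simpa using h2) _, cl_of c2 _, cl_of c4 _,
          cl_symm (cl_of c1 _), cl_symm (cl_of c2 _),
          cl_of (by simpa using c1.mono Set.inter_subset_right) _, c5,
          cl_symm (cl_of c3 _), cl_symm (cl_of c4 _), cl_symm c5,
          cl_of (by simpa using c3.mono Set.inter_subset_right) _]) S.walls.pt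
        ((Set.toFinite {A, Aᶜ, (g : G) • B, ((g : G) • B)ᶜ}).subset fun C k => k.1)
      obtain ⟨a, a1, a2⟩ := e2 p (hp _ (by simp)) (hp _ (by simp))
      have a3 : (a : G) • A = A := a1
      have m : (a : G) • (g : G) • B ∈ J := ⟨Set.mem_biUnion a2
        (S.cut_smul _ ⟨hC, hp _ (by simp), hp _ (by simp)⟩), a3 ▸ cross_smul (a : G) h,
        a * g, by rw [Subgroup.coe_mul, mul_smul]⟩
      refine ⟨⟨_, m⟩, a⁻¹, Subgroup.inv_mem _ a1, a * g * (n ⟨_, m⟩)⁻¹, ?_, by group⟩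
      show ((a : G) * g * (n ⟨_, m⟩ : G)⁻¹) • (a : G) • (g : G) • B = (a : G) • (g : G) • B
      rw [mul_smul, mul_smul, inv_smul_eq_iff.2 (hn ⟨_, m⟩).symm]
    · rintro ⟨j, a, a1, b, b1, k⟩
      have a3 : (a : G) • A = A := a1
      have b3 : (b : G) • j.1 = j.1 := b1
      have : g = a * b * n j := by rw [← k]; group
      show Cross A ((g : G) • B)
      rw [this, Subgroup.coe_mul, Subgroup.coe_mul, mul_smul, mul_smul, hn, b3]
      exact a3 ▸ cross_smul (a : G) j.2.2.1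
  refine virt_mono (virt_sep sep (g := 1) (by simpa using e)) ?_
  rintro l ⟨hl, h⟩ k
  exact (h (by simpa using k)).elim

theorem flip_ne {𝒲 : Walls G Ω} {σ a : Vx 𝒲} {A : Set Ω} (h : Df σ a = {A}) :
    A ∈ 𝒲.W ∧ A.Nonempty ∧ Aᶜ.Nonempty := by
  have a1 : A ∈ Df σ a := h ▸ rfl
  have a2 := (df_compl a1).1
  exact ⟨σ.sub a1.1, by simpa using σ.int _ a1.1 _ a1.1, by simpa using a.int _ a2 _ a2⟩

theorem Setup.virt_vx (S : Setup Γ N X π f δ) (σ : Vx S.walls) : Virt fun l : G =>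
    (l • σ = σ → l = 1) ∧ ∀ A B a b, Df σ a = {A} → Df σ b = {B} →
      (B = l • A → B = A) ∧ (Cross A (l • B) → Cross A B) := by
  obtain ⟨κ, hκ⟩ := S.qc_walls
  have pf := S.pts_finite σ (hc0 δ κ 1)
  refine virt_and ?_ ?_
  · obtain ⟨p, -, hp⟩ := S.vx_pt hκ σ (T := Set.univ) (fun _ _ _ _ m _ => by
      obtain ⟨c, rfl⟩ := S.psurj m
      exact ⟨_, ⟨c, trivial, rfl⟩, by simp⟩) ⟨S.walls.pt, trivial⟩
      fun A hA => cl_of (by simpa using σ.int A hA A hA) _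
    have fin : {g : G | g • σ = σ ∧ g ≠ 1}.Finite := by
      refine Set.Finite.of_finite_image (f := (· * p)) (pf.subset ?_) (mul_left_injective p).injOn
      rintro _ ⟨g, ⟨h, -⟩, rfl⟩ A hA
      rw [← h, mem_smul_vx] at hA
      simpa using S.near_smul g (hp _ hA)
    refine virt_mono (virt_all fin fun g hg => S.rf hg.2) fun l h k => ?_
    by_contra e
    exact h l ⟨k, e⟩ rfl
  · have fin : {A | ∃ a, Df σ a = {A}}.Finite := by
      refine (pf.biUnion fun p _ => S.cut_finite p (hc0 δ κ 1)).subset ?_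
      rintro A ⟨a, h⟩
      obtain ⟨h1, h2, h3⟩ := flip_ne h
      have a1 : A ∈ Df σ a := h ▸ rfl
      obtain ⟨p, p1, p2⟩ := S.vx_pt hκ σ (hκ _ (S.walls.compl A h1)) h3 fun B hB => by
        by_cases e : B = A
        · rw [e]; exact S.cl_compl h2 h3
        · refine cl_of (a.int _ ?_ _ (df_compl a1).1) _
          by_contra k
          have : B ∈ Df σ a := ⟨hB, k⟩
          rw [h] at this
          exact e this
      exact Set.mem_biUnion p2 ⟨h1, p2 _ a1.1, p1⟩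
    refine virt_mono (virt_all fin fun A ⟨a, hA⟩ => virt_all fin fun B ⟨b, hB⟩ => virt_and
      (S.virt_eq (flip_ne hA).1 (flip_ne hA).2.1 (flip_ne hA).2.2 B)
      (S.virt_cross (flip_ne hA).1 (flip_ne hA).2.1 (flip_ne hA).2.2 (flip_ne hB).1))
      fun l h A B a b hA hB => h A ⟨a, hA⟩ B ⟨b, hB⟩

theorem Setup.hull (S : Setup Γ N X π f δ) (H : Subgroup G) (hH : IsQuasiconvexIn Γ H) :
    Cofin H {σ : Vx S.walls | ∀ A ∈ σ.s, ∃ ω ∈ A, π ω ∈ H} := by
  obtain ⟨κ, hκ⟩ := S.qc_walls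
  obtain ⟨κ', hH⟩ := hH
  refine ⟨(S.vx_finite 1 (hc0 δ (κ + κ') 1 + hc0 δ (κ + κ') 1)).toFinset, fun σ hσ => ?_⟩
  obtain ⟨c, hc⟩ := S.psurj 1
  obtain ⟨p, ⟨ω, p1, p2⟩, p3⟩ := S.vx_pt (κ := κ + κ') (fun A hA => qc_mono (by omega) (hκ A hA)) σ
    (T := π ⁻¹' H) (by
      rw [Set.image_preimage_eq _ S.psurj]
      exact qc_mono (Nat.le_add_left _ _) hH) ⟨c, by simp [hc]⟩ fun A hA => cl_of (hσ A hA) _
  refine ⟨π ω, p1, (π ω)⁻¹ • σ, ?_, by simp⟩
  rw [Set.Finite.mem_toFinset]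
  intro A hA
  rw [mem_smul_vx, inv_inv] at hA
  simpa using S.near_smul (π ω)⁻¹ (S.near_tri (p3 _ hA) (q := π ω) (by rwa [dist_comm]))

theorem Setup.main (S : Setup Γ N X π f δ) (H : Subgroup G) (hH : IsQuasiconvexIn Γ H) :
    IsVirtualRetract H := by
  obtain ⟨F, hF⟩ := S.hull ⊤ ⟨0, fun _ _ _ _ m _ => ⟨m, trivial, by simp⟩⟩
  obtain ⟨L, l1, l2⟩ := virt_all F.finite_toSet fun σ _ => S.virt_vx σ
  have hn : L.normalCore.Normal := inferInstance
  have red : ∀ σ : Vx S.walls, ∃ g : G, ∃ τ ∈ F, τ = g • σ := fun σ => by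
    obtain ⟨g, -, τ, h1, rfl⟩ := hF σ fun A hA => by
      obtain ⟨ω, h, -⟩ := σ.int A hA A hA
      exact ⟨ω, h, trivial⟩
    exact ⟨g⁻¹, τ, h1, by simp⟩
  have sp : ActsSpecially (YG S.walls) L.normalCore := by
    refine special_of (fun n h1 σ h2 => ?_) fun σ a b A B hA hB n h1 => ?_
    · obtain ⟨g, τ, t1, rfl⟩ := red σ
      have := (l2 _ (L.normalCore_le (hn.conj_mem n h1 g)) _ t1).1 (by simp [mul_smul, h2])
      simpa using this
    · obtain ⟨g, τ, t1, rfl⟩ := red σ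
      obtain ⟨k1, k2⟩ := (l2 _ (L.normalCore_le (hn.conj_mem n h1 g)) _ t1).2 _ _ _ _
        (df_smul g hA) (df_smul g hB)
      refine ⟨fun e => MulAction.injective g (k1 (by simp [mul_smul, e])), fun c => ?_⟩
      simpa using cross_smul g⁻¹ (k2 (by simpa [mul_smul] using cross_smul g c))
  obtain ⟨F', hF'⟩ := S.hull H hH
  obtain ⟨c, hc⟩ := S.psurj 1
  refine Pool.Agent.Lib.MP_a112e0_al.main yg_median yg_smul sp
    ⟨pr S.walls c, fun A hA => ⟨c, hA.2, hc ▸ H.one_mem⟩⟩ ?_ ?_ F' hF'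
  · intro x hx y hy m hm A hA
    exact ((btw_iff' _ _ _).1 hm hA).elim (hx A) (hy A)
  · intro h hh σ hσ A hA
    obtain ⟨ω, h1, h2⟩ := hσ _ (mem_smul_vx.1 hA)
    exact ⟨h • ω, Set.mem_inv_smul_set_iff.1 h1, by rw [S.pe]; exact H.mul_mem hh h2⟩

theorem cayley_conn (T : Set G) (hT : Subgroup.closure T = ⊤) : (mulCayley T).Connected := by
  have key : ∀ g ∈ Subgroup.closure T, ∀ a, (mulCayley T).Reachable a (a * g) := by
    intro g hg
    induction hg using Subgroup.closure_induction with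
    | mem s hs =>
      intro a
      by_cases e : a = a * s
      · rw [← e]
      · exact Adj.reachable ((mulCayley_adj' _ _ _).2 ⟨e, s, hs, Or.inl rfl⟩)
    | one => intro a; rw [mul_one]
    | mul x y _ _ h1 h2 => intro a; rw [← mul_assoc]; exact (h1 a).trans (h2 _)
    | inv x _ h => intro a; simpa using (h (a * x⁻¹)).symm
  exact ⟨fun a b => by simpa using key (a⁻¹ * b) (hT ▸ trivial) a⟩

theorem final (T : Finset G) (hT : Subgroup.closure (T : Set G) = ⊤)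
    (hyp : IsHyperbolicGraph (mulCayley (T : Set G))) [N.FiniteIndex] (hX : IsMedianGraph X)
    (hlf : ∀ v, (X.neighborSet v).Finite) (hact : ∀ (n : N) u v, X.Adj u v → X.Adj (n • u) (n • v))
    (F : Finset V) (hF : ∀ v, ∃ n : N, ∃ x ∈ F, v = n • x) (hsp : ActsSpecially X (⊤ : Subgroup N))
    (H : Subgroup G) (hH : IsQuasiconvexIn (mulCayley (T : Set G)) H) : IsVirtualRetract H := by
  obtain ⟨δ, hδ⟩ := hyp
  let _ : MulAction G (G × F) :=
    { smul := fun g ω => (g * ω.1, ω.2)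
      one_smul := fun ω => Prod.ext (one_mul _) rfl
      mul_smul := fun a b ω => Prod.ext (mul_assoc _ _ _) rfl }
  have hν : ∀ a : G, a * (((a⁻¹ : G) : G ⧸ N).out) ∈ N := fun a => by
    simpa using N.inv_mem (QuotientGroup.eq.1 (QuotientGroup.out_eq' ((a⁻¹ : G) : G ⧸ N)))
  have hν2 : ∀ (n : N) (a : G), ((((n : G) * a)⁻¹ : G) : G ⧸ N) = (a⁻¹ : G) := fun n a =>
    QuotientGroup.eq.2 (by simp)
  refine Setup.main (N := N) (X := X) (δ := δ) (π := (Prod.fst : G × F → G))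
    (f := fun ω => (⟨_, hν ω.1⟩ : N) • ω.2.1) ⟨cayley_conn _ hT,
      fun g a b h => mulCayley_adj_mul_iff_right.2 h, fun a => ?_, hδ, inferInstance, hX, hlf, hact,
      hsp, fun _ _ => rfl, fun a => ?_, fun a => ?_, fun n ω => ?_, fun v => ?_⟩ H hH
  · refine ((T.finite_toSet.image (a * ·)).union (T.finite_toSet.image (a * ·⁻¹))).subset ?_
    intro b hb
    obtain ⟨-, s, hs, rfl | rfl⟩ := (mulCayley_adj' _ _ _).1 hb
    · exact Or.inl ⟨s, hs, rfl⟩
    · exact Or.inr ⟨s, hs, by simp⟩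
  · refine (Set.finite_range fun i : F => (a, i)).subset ?_
    rintro ⟨_, i⟩ rfl
    exact ⟨i, rfl⟩
  · obtain ⟨v⟩ := hX.1.nonempty
    obtain ⟨-, x, hx, -⟩ := hF v
    exact ⟨(a, ⟨x, hx⟩), rfl⟩
  · rw [smul_smul]
    congr 1
    apply Subtype.ext
    show (n : G) * ω.1 * _ = n * (ω.1 * _)
    rw [mul_assoc]
    exact congrArg (fun q : G ⧸ N => (n : G) * (ω.1 * q.out)) (hν2 n ω.1)
  · obtain ⟨n, x, hx, rfl⟩ := hF v
    refine ⟨((n * (⟨_, hν 1⟩ : N)⁻¹ : N) * 1, ⟨x, hx⟩), ?_⟩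
    dsimp only
    congr 1
    apply Subtype.ext
    show _ * Quotient.out _ = _
    rw [hν2]
    simp

end Pool.Agent.Lib.MP_a112e0_al
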