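import Pool.Agent.Lib.MP_a112e0_al.Median

/-! Halfspaces of median graphs. -/

namespace Pool.Agent.Lib.MP_a112e0_al
open SimpleGraph

variable {V : Type*} {X : SimpleGraph V}

def Hs (X : SimpleGraph V) (u v : V) : Set V := {x | X.dist x u < X.dist x v}

def IsHalf (X : SimpleGraph V) (h : Set V) : Prop := ∃ u v, X.Adj u v ∧ h = Hs X u v

theorem hs_compl (hX : IsMedianGraph X) {u v : V} (h : X.Adj u v) : (Hs X u v)ᶜ = Hs X v u := by
  ext x
  have := bip hX x h
  simp only [Hs, Set.mem_compl_iff, Set.mem_ofPred_eq]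
  omega

theorem half_compl (hX : IsMedianGraph X) {h : Set V} (hh : IsHalf X h) : IsHalf X hᶜ := by
  obtain ⟨u, v, a, rfl⟩ := hh
  exact ⟨v, u, a.symm, hs_compl hX a⟩

theorem exit_edge (hc : X.Connected) (W : Set V) {x : V} (hx : x ∈ W) : ∀ (n : ℕ) (z : V),
    X.dist x z = n → z ∉ W →
      ∃ a b, X.Adj a b ∧ a ∈ W ∧ b ∉ W ∧ X.dist x a + 1 + X.dist b z = n := by
  intro n
  induction n with
  | zero => intro z h hz; rw [← hc.dist_eq_zero_iff.1 h] at hz; exact (hz hx).elim
  | succ n ih =>
    intro z h hz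
    obtain ⟨u, h1, h2⟩ := exists_pred hc x z n h
    by_cases hu : u ∈ W
    · exact ⟨u, z, h1, hu, hz, by simp [h2]⟩
    · obtain ⟨a, b, a1, a2, a3, a4⟩ := ih u h2 hu
      have t1 : X.dist b z ≤ X.dist b u + X.dist u z := hc.dist_triangle
      have t2 : X.dist x z ≤ X.dist x b + X.dist b z := hc.dist_triangle
      have t3 : X.dist x b ≤ X.dist x a + X.dist a b := hc.dist_triangle
      have := dist_adj h1
      have := dist_adj a1
      exact ⟨a, b, a1, a2, a3, by omega⟩

theorem hs_convex (hX : IsMedianGraph X) {u v : V} (h : X.Adj u v) : IsConvexIn X (Hs X u v) := by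
  intro x0 hx0 y0 hy0 z hz
  by_contra hcon
  have hc := hX.1
  obtain ⟨x, x1, a1, a2, a3, a4⟩ := exit_edge hc _ hx0 _ z rfl hcon
  obtain ⟨y, y1, b1, b2, b3, b4⟩ := exit_edge hc _ hy0 _ z rfl hcon
  simp only [Hs, Set.mem_ofPred_eq] at a2 a3 b2 b3
  unfold Btw at hz
  obtain ⟨p, ⟨p1, p2, p3⟩, -⟩ := hX.2 x y u
  obtain ⟨q, ⟨q1, q2, q3⟩, -⟩ := hX.2 x1 y1 v
  unfold Btw at p1 p2 p3 q1 q2 q3
  have e1 := dist_adj a1
  have e2 := dist_adj b1
  have e3 := dist_adj h
  have tri : ∀ a b c, X.dist a c ≤ X.dist a b + X.dist b c := fun a b c => hc.dist_triangle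
  have sy : ∀ a b, X.dist a b = X.dist b a := fun a b => dist_comm
  have c1 := bip hX x h
  have c2 := bip hX y h
  have c3 := bip hX x1 h
  have c4 := bip hX y1 h
  have d1 : X.dist x1 v = X.dist x u := by
    have := tri x x1 v; have := tri x1 x u; have := sy x x1; omega
  have d2 : X.dist y1 v = X.dist y u := by
    have := tri y y1 v; have := tri y1 y u; have := sy y y1; omega
  have d3 : X.dist x y = X.dist x1 y1 + 2 := by
    have := tri x0 x y0; have := tri x y y0; have := sy y y0; have := sy z y0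
    have := tri x x1 y; have := tri x1 y1 y; have := sy y y1; have := tri x1 z y1
    have := sy z y1
    omega
  have sp := sy p y
  have sq := sy q y1
  have d4 : X.dist q v = X.dist p u + 1 := by omega
  have hp : Btw X x p y ∧ Btw X y p v ∧ Btw X x p v := by
    unfold Btw
    have := tri p u v; have := tri y p v; have := tri x p v
    omega
  have hq : Btw X x q y ∧ Btw X y q v ∧ Btw X x q v := by
    unfold Btw
    have := tri x x1 q; have := tri y y1 q; have := tri x q y; have := tri y q v
    have := tri x q v; have := sy q y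
    omega
  have := (hX.2 x y v).unique hp hq
  subst this
  have := tri x1 p u
  omega

theorem half_convex (hX : IsMedianGraph X) {h : Set V} (hh : IsHalf X h) : IsConvexIn X h := by
  obtain ⟨u, v, a, rfl⟩ := hh
  exact hs_convex hX a

theorem half_eq (hX : IsMedianGraph X) {h : Set V} (hh : IsHalf X h) {a b : V} (hab : X.Adj a b)
    (ha : a ∈ h) (hb : b ∉ h) : h = Hs X a b := by
  have key : ∀ (k : Set V) (a b : V), IsHalf X k → X.Adj a b → a ∈ k → b ∉ k → k ⊆ Hs X a b := by
    intro k a b hk hab ha hb x hx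
    by_contra hcon
    refine hb (half_convex hX hk x hx a ha b ?_)
    have := bip hX x hab
    have := dist_adj hab.symm
    simp only [Hs, Set.mem_ofPred_eq] at hcon
    unfold Btw
    omega
  refine Set.Subset.antisymm (key h a b hh hab ha hb) ?_
  have := key hᶜ b a (half_compl hX hh) hab.symm hb (fun k => k ha)
  rw [← hs_compl hX hab] at this
  exact Set.compl_subset_compl.1 this

def SepH (X : SimpleGraph V) (x y : V) : Set (Set V) := {h | IsHalf X h ∧ x ∈ h ∧ y ∉ h}

theorem sep_card (hX : IsMedianGraph X) (x : V) : ∀ (n : ℕ) (y : V), X.dist x y = n →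
    (SepH X x y).Finite ∧ n ≤ (SepH X x y).ncard := by
  intro n
  induction n with
  | zero =>
    intro y h
    rw [← hX.1.dist_eq_zero_iff.1 h]
    refine ⟨?_, Nat.zero_le _⟩
    have : SepH X x x = ∅ := Set.eq_empty_of_forall_notMem fun h k => k.2.2 k.2.1
    rw [this]; exact Set.finite_empty
  | succ n ih =>
    intro y h
    obtain ⟨u, h1, h2⟩ := exists_pred hX.1 x y n h
    obtain ⟨i1, i2⟩ := ih u h2
    have e : SepH X x y = insert (Hs X u y) (SepH X x u) := by
      ext k
      constructor
      · rintro ⟨k1, k2, k3⟩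
        by_cases hu : u ∈ k
        · exact Or.inl (half_eq hX k1 h1 hu k3)
        · exact Or.inr ⟨k1, k2, hu⟩
      · rintro (rfl | ⟨k1, k2, k3⟩)
        · exact ⟨⟨u, y, h1, rfl⟩, by simp [Hs, h, h2], by simp [Hs]⟩
        · refine ⟨k1, k2, fun hy => k3 (half_convex hX k1 x k2 y hy u ?_)⟩
          unfold Btw; rw [dist_adj h1]; omega
    have hn : Hs X u y ∉ SepH X x u := fun k => k.2.2 (by simp [Hs, dist_adj h1])
    rw [e, Set.ncard_insert_of_notMem hn i1]
    exact ⟨i1.insert _, by omega⟩

theorem exists_geod (hc : X.Connected) (a : V) : ∀ (n : ℕ) (b : V), X.dist a b = n →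
    ∃ x : ℕ → V, x 0 = a ∧ x n = b ∧ (∀ i ≤ n, X.dist a (x i) = i ∧ X.dist (x i) b + i = n) ∧
      ∀ i < n, X.Adj (x i) (x (i + 1)) := by
  intro n
  induction n with
  | zero =>
    intro b h
    rw [← hc.dist_eq_zero_iff.1 h]
    exact ⟨fun _ => a, rfl, rfl, fun i hi => by simp; omega, fun i hi => by omega⟩
  | succ n ih =>
    intro b h
    obtain ⟨u, h1, h2⟩ := exists_pred hc a b n h
    obtain ⟨x, x1, x2, x3, x4⟩ := ih u h2
    refine ⟨fun i => if i ≤ n then x i else b, by simp [x1], by simp, fun i hi => ?_, fun i hi => ?_⟩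
    · by_cases k : i ≤ n
      · simp only [k, if_true]
        have := x3 i k
        have t1 : X.dist (x i) b ≤ X.dist (x i) u + X.dist u b := hc.dist_triangle
        have t2 : X.dist a b ≤ X.dist a (x i) + X.dist (x i) b := hc.dist_triangle
        have := dist_adj h1
        omega
      · simp only [k, if_false, dist_self]; omega
    · by_cases k : i + 1 ≤ n
      · simp only [k, (by omega : i ≤ n), if_true]; exact x4 i k
      · have : i = n := by omega
        subst this
        simp only [k, le_refl, if_true, if_false, x2]; exact h1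

theorem ball_finite (hc : X.Connected) (hlf : ∀ v, (X.neighborSet v).Finite) (x : V) (r : ℕ) :
    {y | X.dist x y ≤ r}.Finite := by
  induction r with
  | zero =>
    refine (Set.finite_singleton x).subset fun y hy => ?_
    exact (hc.dist_eq_zero_iff.1 (Nat.le_zero.1 hy)).symm
  | succ r ih =>
    refine (ih.union (ih.biUnion fun u _ => hlf u)).subset fun y hy => ?_
    by_cases k : X.dist x y ≤ r
    · exact Or.inl k
    · have hy' : X.dist x y ≤ r + 1 := hy
      obtain ⟨u, h1, h2⟩ := exists_pred hc x y r (by omega)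
      exact Or.inr (Set.mem_biUnion (le_of_eq h2) h1)

variable {G : Type*} [Group G] [MulAction G V]

theorem dist_smul (hc : X.Connected) (hG : ∀ (g : G) u v, X.Adj u v → X.Adj (g • u) (g • v))
    (g : G) (u v : V) : X.dist (g • u) (g • v) = X.dist u v := by
  have key : ∀ (g : G) (u : V) (n : ℕ) (v : V), X.dist u v = n → X.dist (g • u) (g • v) ≤ n := by
    intro g u n
    induction n with
    | zero => intro v h; rw [← hc.dist_eq_zero_iff.1 h]; simp
    | succ n ih =>
      intro v h
      obtain ⟨w, h1, h2⟩ := exists_pred hc u v n h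
      have := ih w h2
      have t : X.dist (g • u) (g • v) ≤ X.dist (g • u) (g • w) + X.dist (g • w) (g • v) :=
        hc.dist_triangle
      have := dist_adj (hG g _ _ h1)
      omega
  refine le_antisymm (key g u _ v rfl) ?_
  have := key g⁻¹ (g • u) _ (g • v) rfl
  simpa using this

theorem half_smul (hc : X.Connected) (hG : ∀ (g : G) u v, X.Adj u v → X.Adj (g • u) (g • v))
    (g : G) {h : Set V} (hh : IsHalf X h) : IsHalf X {x | g • x ∈ h} := by
  obtain ⟨u, v, a, rfl⟩ := hh
  refine ⟨g⁻¹ • u, g⁻¹ • v, hG _ _ _ a, ?_⟩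
  ext x
  simp only [Hs, Set.mem_ofPred_eq]
  rw [← dist_smul hc hG g x, ← dist_smul hc hG g x, smul_inv_smul, smul_inv_smul]

end Pool.Agent.Lib.MP_a112e0_al
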