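import Pool.Agent.Lib.MP_a112e0_al.Hyp
import Pool.Agent.Lib.MP_a112e0_al.Half
import Pool.Agent.Lib.MP_a112e0_al.Dual
import Pool.Agent.Lib.MP_a112e0_al.DCS

/-! Walls on a hyperbolic group coming from a cubulation of a finite index subgroup. -/

namespace Pool.Agent.Lib.MP_a112e0_al
open SimpleGraph Pointwise
set_option linter.unusedSectionVars false

variable {G Ω V : Type*} [Group G] [MulAction G Ω]

structure Setup (Γ : SimpleGraph G) (N : Subgroup G) [MulAction N V] (X : SimpleGraph V)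
    (π : Ω → G) (f : Ω → V) (δ : ℕ) : Prop where
  conn : Γ.Connected
  inv : ∀ g a b : G, Γ.Adj a b → Γ.Adj (g • a) (g • b)
  lf : ∀ a, (Γ.neighborSet a).Finite
  hyp : FourPt Γ δ
  fi : N.FiniteIndex
  med : IsMedianGraph X
  xlf : ∀ v, (X.neighborSet v).Finite
  xinv : ∀ (n : N) u v, X.Adj u v → X.Adj (n • u) (n • v)
  sp : ActsSpecially X (⊤ : Subgroup N)
  pe : ∀ (g : G) ω, π (g • ω) = g * π ω
  pfin : ∀ a, (π ⁻¹' {a}).Finite
  psurj : Function.Surjective π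
  fe : ∀ (n : N) ω, f ((n : G) • ω) = n • f ω
  fsurj : Function.Surjective f

variable {Γ : SimpleGraph G} {N : Subgroup G} [MulAction N V] {X : SimpleGraph V} {π : Ω → G}
  {f : Ω → V} {δ : ℕ}

theorem Setup.dmul (S : Setup Γ N X π f δ) (g a b : G) : Γ.dist (g * a) (g * b) = Γ.dist a b :=
  dist_smul S.conn S.inv g a b

theorem Setup.reps (S : Setup Γ N X π f δ) :
    ∃ T : Set G, T.Finite ∧ ∀ p : G, ∃ n : N, (n : G) * p ∈ T := by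
  have := S.fi
  obtain ⟨T, -, hT⟩ := exists_reps N Set.univ
  refine ⟨(T : Set G)⁻¹, T.finite_toSet.inv, fun p => ?_⟩
  obtain ⟨t, h1, h2⟩ := hT p⁻¹ trivial
  exact ⟨⟨_, h2⟩, by simpa using h1⟩

theorem Setup.cof (S : Setup Γ N X π f δ) :
    ∃ E : Set Ω, E.Finite ∧ ∀ ω, ∃ n : N, (n : G) • ω ∈ E := by
  obtain ⟨T, h1, h2⟩ := S.reps
  refine ⟨π ⁻¹' T, h1.preimage' fun b _ => S.pfin b, fun ω => ?_⟩
  obtain ⟨n, hn⟩ := h2 (π ω)
  exact ⟨n, by rwa [Set.mem_preimage, S.pe]⟩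

theorem Setup.ffin (S : Setup Γ N X π f δ) (y : V) : (f ⁻¹' {y}).Finite := by
  obtain ⟨E, h1, h2⟩ := S.cof
  refine (h1.biUnion (t := fun e => {ω | f ω = y ∧ ∃ n : N, (n : G) • ω = e}) fun e _ =>
    Set.Subsingleton.finite ?_).subset fun ω h => ?_
  · rintro a ⟨a1, n, a2⟩ b ⟨b1, m, b2⟩
    have e1 : n • y = m • y := by rw [← a1, ← S.fe, a2, ← b2, S.fe, b1, a1]
    rw [← inv_smul_eq_iff, smul_smul] at e1
    have e2 := inv_mul_eq_one.1 (S.sp.1 _ trivial _ e1)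
    subst e2
    exact MulAction.injective _ (a2.trans b2.symm)
  · obtain ⟨n, hn⟩ := h2 ω
    exact Set.mem_biUnion hn ⟨h, n, rfl⟩

theorem Setup.unif (S : Setup Γ N X π f δ) (R : Ω → Ω → Prop) (φ : Ω → Ω → ℕ)
    (h1 : ∀ (n : N) a b, R a b → R ((n : G) • a) ((n : G) • b))
    (h2 : ∀ (n : N) a b, φ ((n : G) • a) ((n : G) • b) = φ a b) (h3 : ∀ a, {b | R a b}.Finite) :
    ∃ L, ∀ a b, R a b → φ a b ≤ L := by
  obtain ⟨E, e1, e2⟩ := S.cof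
  obtain ⟨L, hL⟩ := (e1.biUnion fun e _ => (h3 e).image (φ e)).bddAbove
  refine ⟨L, fun a b h => ?_⟩
  obtain ⟨n, hn⟩ := e2 a
  rw [← h2 n]
  exact hL (Set.mem_biUnion hn ⟨_, h1 n a b h, rfl⟩)

theorem Setup.oball (S : Setup Γ N X π f δ) (p : G) (R : ℕ) : {ω | Γ.dist p (π ω) ≤ R}.Finite :=
  (ball_finite S.conn S.lf p R).preimage' fun b _ => S.pfin b

theorem Setup.xball (S : Setup Γ N X π f δ) (x : V) (R : ℕ) : {ω | X.dist x (f ω) ≤ R}.Finite :=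
  (ball_finite S.med.1 S.xlf x R).preimage' fun b _ => S.ffin b

theorem Setup.qc_pre (S : Setup Γ N X π f δ) :
    ∃ κ, ∀ h, IsConvexIn X h → QC Γ κ (π '' (f ⁻¹' h)) := by
  have i1 : ∀ (n : N) a b, Γ.dist (π ((n : G) • a)) (π ((n : G) • b)) = Γ.dist (π a) (π b) :=
    fun n a b => by rw [S.pe, S.pe, S.dmul]
  have i2 : ∀ (n : N) a b, X.dist (f ((n : G) • a)) (f ((n : G) • b)) = X.dist (f a) (f b) :=
    fun n a b => by rw [S.fe, S.fe, dist_smul S.med.1 S.xinv]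
  obtain ⟨L1, h1⟩ := S.unif (fun a b => Γ.dist (π a) (π b) ≤ 1) (fun a b => X.dist (f a) (f b))
    (fun n a b h => by rwa [i1]) i2 fun a => S.oball _ 1
  obtain ⟨L2, h2⟩ := S.unif (fun a b => X.dist (f a) (f b) ≤ 1) (fun a b => Γ.dist (π a) (π b))
    (fun n a b h => by rwa [i2]) i1 fun a => S.xball _ 1
  have lip : ∀ a (n : ℕ) b, Γ.dist (π a) (π b) = n → X.dist (f a) (f b) ≤ L1 * (n + 1) := by
    intro a n
    induction n with
    | zero => intro b h; simpa using h1 a b (by omega)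
    | succ n ih =>
      intro b h
      obtain ⟨u, u1, u2⟩ := exists_pred S.conn _ _ n h
      obtain ⟨c, rfl⟩ := S.psurj u
      have t : X.dist (f a) (f b) ≤ X.dist (f a) (f c) + X.dist (f c) (f b) :=
        S.med.1.dist_triangle
      have := ih c u2
      have := h1 c b (dist_adj u1).le
      rw [mul_add]; omega
  obtain ⟨D, hD⟩ := morse S.conn S.hyp (L1 + L2 + 1)
  refine ⟨D, ?_⟩
  rintro h hh _ ⟨a, ha, rfl⟩ _ ⟨b, hb, rfl⟩ m hm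
  obtain ⟨x, x1, x2, x3, x4⟩ := exists_geod S.med.1 (f a) _ (f b) rfl
  generalize hn : X.dist (f a) (f b) = n at x2 x3 x4
  have : ∀ i, ∃ c, f c = x (min i n) ∧ (i = 0 → c = a) ∧ (i = n + 1 → c = b) := by
    intro i
    by_cases k : i = 0
    · subst k; exact ⟨a, by simp [x1], fun _ => rfl, fun l => by omega⟩
    by_cases l : i = n + 1
    · subst l; exact ⟨b, by simp [x2], fun l => (k l).elim, fun _ => rfl⟩
    · obtain ⟨c, hc⟩ := S.fsurj (x (min i n))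
      exact ⟨c, hc, fun l => (k l).elim, fun m => (l m).elim⟩
  choose c c1 c2 c3 using this
  obtain ⟨i, -, hi⟩ := hD (fun i => π (c i)) (n + 1) (fun l hl => (h2 _ _ (by
    rw [c1, c1]
    by_cases k : l < n
    · rw [min_eq_left k.le, min_eq_left k]; exact (dist_adj (x4 l k)).le
    · rw [min_eq_right (by omega), min_eq_right (by omega)]; simp)).trans (by omega))
    (fun i _ j _ => by
      have a1 := lip (c i) _ (c j) rfl
      have a2 := (x3 _ (min_le_right i n)).1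
      have a3 := (x3 _ (min_le_right j n)).1
      have t : X.dist (f a) (x (min j n)) ≤ X.dist (f a) (x (min i n)) +
        X.dist (x (min i n)) (x (min j n)) := S.med.1.dist_triangle
      rw [c1, c1] at a1
      rw [add_mul, add_mul]
      omega) m (by rw [c2 0 rfl, c3 _ rfl]; exact hm)
  refine ⟨_, ⟨c i, ?_, rfl⟩, hi⟩
  rw [Set.mem_preimage, c1]
  have := x3 _ (min_le_right i n)
  exact hh _ ha _ hb _ (by unfold Btw; omega)

theorem Setup.qc_smul (S : Setup Γ N X π f δ) {κ : ℕ} {A : Set Ω} (h : QC Γ κ (π '' A)) (g : G) :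
    QC Γ κ (π '' (g • A)) := by
  rintro _ ⟨_, ⟨a, ha, rfl⟩, rfl⟩ _ ⟨_, ⟨b, hb, rfl⟩, rfl⟩ m hm
  obtain ⟨_, ⟨t, ht, rfl⟩, k⟩ := h _ ⟨a, ha, rfl⟩ _ ⟨b, hb, rfl⟩ (g⁻¹ * m) (by
    unfold Btw at hm ⊢
    rw [← S.dmul g, ← S.dmul g _ (π b), ← S.dmul g _ (π b), mul_inv_cancel_left, ← S.pe, ← S.pe]
    exact hm)
  refine ⟨_, ⟨g • t, ⟨t, ht, rfl⟩, rfl⟩, ?_⟩
  rwa [S.pe, ← S.dmul g⁻¹, inv_mul_cancel_left]

theorem Setup.pre_smul (S : Setup Γ N X π f δ) (n : N) (h : Set V) :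
    (n : G) • (f ⁻¹' h) = f ⁻¹' {x | n⁻¹ • x ∈ h} := by
  ext ω
  rw [Set.mem_smul_set_iff_inv_smul_mem, Set.mem_preimage, Set.mem_preimage, Set.mem_ofPred_eq,
    ← S.fe]
  rfl

noncomputable def Setup.walls (S : Setup Γ N X π f δ) : Walls G Ω where
  W := {A | ∃ g : G, ∃ h, IsHalf X h ∧ A = g • (f ⁻¹' h)}
  compl := by
    rintro _ ⟨g, h, a, rfl⟩
    exact ⟨g, hᶜ, half_compl S.med a, by rw [Set.preimage_compl, Set.smul_set_compl]⟩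
  fin := by
    intro a b
    obtain ⟨T, h1, h2⟩ := S.reps
    refine (h1.biUnion fun t _ => (sep_card S.med (f (t • a)) _ (f (t • b)) rfl).1.image
      fun h => t⁻¹ • (f ⁻¹' h)).subset ?_
    rintro _ ⟨⟨g, h, k1, rfl⟩, k2, k3⟩
    obtain ⟨n, hn⟩ := h2 g⁻¹
    have e : g • f ⁻¹' h = ((n : G) * g⁻¹)⁻¹ • f ⁻¹' {x | n⁻¹ • x ∈ h} := by
      rw [← S.pre_smul, smul_smul]; simp
    rw [e] at k2 k3 ⊢
    rw [Set.mem_inv_smul_set_iff] at k2 k3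
    exact Set.mem_biUnion hn ⟨_, ⟨half_smul S.med.1 S.xinv _ k1, k2, k3⟩, rfl⟩
  inv := by
    rintro g _ ⟨g', h, a, rfl⟩
    exact ⟨g * g', h, a, smul_smul _ _ _⟩
  pt := (S.psurj 1).choose

theorem Setup.half_mem (S : Setup Γ N X π f δ) {h : Set V} (hh : IsHalf X h) :
    f ⁻¹' h ∈ S.walls.W := ⟨1, h, hh, (one_smul _ _).symm⟩

theorem Setup.qc_walls (S : Setup Γ N X π f δ) : ∃ κ, ∀ A ∈ S.walls.W, QC Γ κ (π '' A) := by
  obtain ⟨κ, hκ⟩ := S.qc_pre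
  refine ⟨κ, ?_⟩
  rintro _ ⟨g, h, a, rfl⟩
  exact S.qc_smul (hκ h (half_convex S.med a)) g

def Near (Γ : SimpleGraph G) (π : Ω → G) (p : G) (R : ℕ) (A : Set Ω) : Prop :=
  ∃ ω ∈ A, Γ.dist p (π ω) ≤ R

theorem Setup.near_smul (S : Setup Γ N X π f δ) (g : G) {p : G} {R : ℕ} {A : Set Ω}
    (h : Near Γ π p R A) : Near Γ π (g * p) R (g • A) := by
  obtain ⟨ω, h1, h2⟩ := h
  exact ⟨g • ω, ⟨ω, h1, rfl⟩, by rwa [S.pe, S.dmul]⟩

theorem Setup.near_tri (S : Setup Γ N X π f δ) {p q : G} {R R' : ℕ} {A : Set Ω}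
    (h : Near Γ π p R A) (k : Γ.dist q p ≤ R') : Near Γ π q (R' + R) A := by
  obtain ⟨ω, h1, h2⟩ := h
  exact ⟨ω, h1, S.conn.dist_triangle.trans (add_le_add k h2)⟩

theorem near_self {ω : Ω} {A : Set Ω} (h : ω ∈ A) (R : ℕ) : Near Γ π (π ω) R A :=
  ⟨ω, h, by simp⟩

def Setup.Cut (S : Setup Γ N X π f δ) (p : G) (R : ℕ) : Set (Set Ω) :=
  {A | A ∈ S.walls.W ∧ Near Γ π p R A ∧ Near Γ π p R Aᶜ}

theorem Setup.cut_finite (S : Setup Γ N X π f δ) (p : G) (R : ℕ) : (S.Cut p R).Finite := by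
  refine ((S.oball p R).biUnion fun a _ => (S.oball p R).biUnion fun b _ =>
    S.walls.fin a b).subset ?_
  rintro A ⟨h, ⟨a, a1, a2⟩, ⟨b, b1, b2⟩⟩
  exact Set.mem_biUnion a2 (Set.mem_biUnion b2 ⟨h, a1, b1⟩)

theorem Setup.cut_smul (S : Setup Γ N X π f δ) (g : G) {p : G} {R : ℕ} {A : Set Ω}
    (h : A ∈ S.Cut p R) : g • A ∈ S.Cut (g * p) R :=
  ⟨S.walls.inv g A h.1, S.near_smul g h.2.1, by
    rw [← Set.smul_set_compl]; exact S.near_smul g h.2.2⟩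

theorem Setup.close (S : Setup Γ N X π f δ) (R : ℕ) : ∃ M, ∀ (a b : Ω) (p q : G),
    (∀ h, IsHalf X h → f a ∈ h → f b ∉ h → f ⁻¹' h ∈ S.Cut p R ∪ S.Cut q R) →
      X.dist (f a) (f b) ≤ M := by
  have key : ∀ p, (S.Cut p R).ncard ≤ (S.Cut 1 R).ncard := fun p =>
    Set.ncard_le_ncard_of_injOn (p⁻¹ • ·) (fun A h => by simpa using S.cut_smul p⁻¹ h)
      (MulAction.injective p⁻¹).injOn (S.cut_finite _ _)
  refine ⟨2 * (S.Cut 1 R).ncard, fun a b p q h => ?_⟩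
  have h1 := (sep_card S.med (f a) _ (f b) rfl).2
  have h2 := Set.ncard_le_ncard_of_injOn (s := SepH X (f a) (f b)) (f ⁻¹' ·)
    (fun k hk => h k hk.1 hk.2.1 hk.2.2) (Set.preimage_injective.2 S.fsurj).injOn
    ((S.cut_finite p R).union (S.cut_finite q R))
  have h3 := Set.ncard_union_le (S.Cut p R) (S.Cut q R)
  have := key p
  have := key q
  omega

def Cl (Γ : SimpleGraph G) (π : Ω → G) (r : ℕ) (A B : Set Ω) : Prop :=
  ∃ a ∈ A, ∃ b ∈ B, Γ.dist (π a) (π b) ≤ r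

theorem cl_symm {r : ℕ} {A B : Set Ω} (h : Cl Γ π r A B) : Cl Γ π r B A := by
  obtain ⟨a, a1, b, b1, h⟩ := h
  exact ⟨b, b1, a, a1, by rwa [dist_comm]⟩

theorem cl_of {A B : Set Ω} (h : (A ∩ B).Nonempty) (r : ℕ) : Cl Γ π r A B :=
  let ⟨a, h1, h2⟩ := h
  ⟨a, h1, a, h2, by simp⟩

theorem cl_mono {r r' : ℕ} {A B : Set Ω} (h : Cl Γ π r A B) (k : r ≤ r') : Cl Γ π r' A B :=
  let ⟨a, a1, b, b1, h⟩ := h
  ⟨a, a1, b, b1, h.trans k⟩

theorem Setup.helly (S : Setup Γ N X π f δ) {κ r : ℕ} (𝒯 : Set (Set Ω))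
    (h1 : ∀ A ∈ 𝒯, QC Γ κ (π '' A)) (h2 : ∀ A ∈ 𝒯, ∀ B ∈ 𝒯, Cl Γ π r A B) (o : Ω)
    (h3 : {A | A ∈ 𝒯 ∧ o ∉ A}.Finite) : ∃ p, ∀ A ∈ 𝒯, Near Γ π p (hc0 δ κ r) A := by
  have : ∀ A : Set Ω, ∃ a, A ∈ 𝒯 → a ∈ A := fun A => by
    by_cases k : A ∈ 𝒯
    · obtain ⟨a, ha, -⟩ := h2 A k A k
      exact ⟨a, fun _ => ha⟩
    · exact ⟨o, fun l => (k l).elim⟩
  choose c hc using this
  obtain ⟨M, hM⟩ := (h3.image fun A => Γ.dist (π o) (π (c A))).bddAbove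
  obtain ⟨p, hp⟩ := Pool.Agent.Lib.MP_a112e0_al.helly S.conn S.hyp (κ := κ) (r := r)
    ((π '' ·) '' 𝒯) (by rintro _ ⟨A, hA, rfl⟩; exact h1 A hA) (by
      rintro _ ⟨A, hA, rfl⟩ _ ⟨B, hB, rfl⟩
      obtain ⟨a, a1, b, b1, h⟩ := h2 A hA B hB
      exact ⟨_, ⟨a, a1, rfl⟩, _, ⟨b, b1, rfl⟩, h⟩) (π o) M (by
      rintro _ ⟨A, hA, rfl⟩
      by_cases k : o ∈ A
      · exact ⟨_, ⟨o, k, rfl⟩, by simp⟩
      · exact ⟨_, ⟨c A, hc A hA, rfl⟩, hM ⟨A, ⟨hA, k⟩, rfl⟩⟩)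
  refine ⟨p, fun A hA => ?_⟩
  obtain ⟨_, ⟨a, a1, rfl⟩, h⟩ := hp _ ⟨A, hA, rfl⟩
  exact ⟨a, a1, h⟩

theorem Setup.cl_compl (S : Setup Γ N X π f δ) {A : Set Ω} (h1 : A.Nonempty) (h2 : Aᶜ.Nonempty) :
    Cl Γ π 1 A Aᶜ := by
  by_contra hcon
  obtain ⟨a, ha⟩ := h1
  obtain ⟨b, hb⟩ := h2
  have : ∀ p, ∀ ω, π ω = p → ω ∈ A := by
    refine conn_ind S.conn (π a) (fun ω h => ?_) fun u v huv ih ω h => ?_
    · by_contra k
      exact hcon ⟨a, ha, ω, k, by simp [h]⟩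
    · by_contra k
      obtain ⟨c, rfl⟩ := S.psurj u
      exact hcon ⟨c, ih c rfl, ω, k, by rw [h]; exact (dist_adj huv).le⟩
  exact hb (this _ b rfl)

theorem Setup.pts_finite (S : Setup Γ N X π f δ) (σ : Vx S.walls) (R : ℕ) :
    {p | ∀ A ∈ σ.s, Near Γ π p R A}.Finite := by
  obtain ⟨M, hM⟩ := S.close R
  rcases {p | ∀ A ∈ σ.s, Near Γ π p R A}.eq_empty_or_nonempty with e | ⟨p, hp⟩
  · rw [e]; exact Set.finite_empty
  obtain ⟨a, rfl⟩ := S.psurj p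
  refine ((S.xball (f a) M).image π).subset fun q hq => ?_
  obtain ⟨b, rfl⟩ := S.psurj q
  refine ⟨b, hM a b (π a) (π b) fun h h1 h2 h3 => ?_, rfl⟩
  rcases σ.tot _ (S.half_mem h1) with k | k
  · exact Or.inr ⟨S.half_mem h1, hq _ k, near_self h3 _⟩
  · exact Or.inl ⟨S.half_mem h1, near_self (A := f ⁻¹' h) h2 _, hp _ k⟩

theorem Setup.vx_finite (S : Setup Γ N X π f δ) (p : G) (R : ℕ) :
    {σ : Vx S.walls | ∀ A ∈ σ.s, Near Γ π p R A}.Finite := by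
  refine Set.Finite.of_finite_image (f := fun σ => σ.s ∩ S.Cut p R)
    ((S.cut_finite p R).finite_subsets.subset ?_) fun σ h1 τ h2 e => ?_
  · rintro _ ⟨σ, -, rfl⟩
    exact Set.inter_subset_right
  · refine df_empty (Set.eq_empty_of_forall_notMem fun A hA => hA.2 ?_)
    have : A ∈ σ.s ∩ S.Cut p R := ⟨hA.1, σ.sub hA.1, h1 A hA.1, h2 _ (df_compl hA).1⟩
    have e' : σ.s ∩ S.Cut p R = τ.s ∩ S.Cut p R := e
    rw [e'] at this
    exact this.1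

theorem Setup.vx_pt (S : Setup Γ N X π f δ) {κ : ℕ} (hκ : ∀ A ∈ S.walls.W, QC Γ κ (π '' A))
    (σ : Vx S.walls) {T : Set Ω} (h1 : QC Γ κ (π '' T)) (h2 : T.Nonempty)
    (h3 : ∀ A ∈ σ.s, Cl Γ π 1 A T) :
    ∃ p, Near Γ π p (hc0 δ κ 1) T ∧ ∀ A ∈ σ.s, Near Γ π p (hc0 δ κ 1) A := by
  obtain ⟨p, hp⟩ := S.helly (κ := κ) (r := 1) (insert T σ.s) (by
    rintro A (rfl | hA)
    · exact h1
    · exact hκ A (σ.sub hA)) (by
    rintro A (rfl | hA) B (rfl | hB)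
    · exact cl_of (by simpa using h2) _
    · exact cl_symm (h3 B hB)
    · exact h3 A hA
    · exact cl_of (σ.int A hA B hB) _) S.walls.pt (((σ.fin S.walls.pt).insert T).subset (by
    rintro A ⟨rfl | hA, k⟩
    · exact Or.inl rfl
    · exact Or.inr ⟨hA, k⟩))
  exact ⟨p, hp T (Or.inl rfl), fun A hA => hp A (Or.inr hA)⟩

theorem Setup.good (S : Setup Γ N X π f δ) {κ : ℕ} (hκ : ∀ A ∈ S.walls.W, QC Γ κ (π '' A))
    (P : Subgroup N) {T U : Set Ω} (h1 : QC Γ κ (π '' T)) (h2 : QC Γ κ (π '' U))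
    (h3 : Cl Γ π 1 T U) (h4 : ∀ n ∈ P, (n : G) • T = T ∧ (n : G) • U = U)
    (h5 : ∀ R, ∃ E : Set G, E.Finite ∧ ∀ p, Near Γ π p R T → Near Γ π p R U →
      ∃ n ∈ P, (n : G) * p ∈ E) : Good X P := by
  classical
  intro x y
  obtain ⟨a, rfl⟩ := S.fsurj x
  obtain ⟨b, rfl⟩ := S.fsurj y
  obtain ⟨t, t1, u, u1, -⟩ := id h3
  let R := Γ.dist (π a) (π t) + Γ.dist (π a) (π u) + Γ.dist (π b) (π t) + Γ.dist (π b) (π u) + 1
  refine ⟨{z | ∀ h, IsHalf X h → z ∈ h → Cl Γ π R (f ⁻¹' h) T ∧ Cl Γ π R (f ⁻¹' h) U},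
    fun h _ k => ⟨⟨a, k, t, t1, by omega⟩, ⟨a, k, u, u1, by omega⟩⟩,
    fun h _ k => ⟨⟨b, k, t, t1, by omega⟩, ⟨b, k, u, u1, by omega⟩⟩, ?_, ?_, ?_⟩
  · intro z hz w hw m hm h k1 k2
    by_cases l : z ∈ h
    · exact hz h k1 l
    by_cases l' : w ∈ h
    · exact hw h k1 l'
    exact (half_convex S.med (half_compl S.med k1) z l w l' m hm k2).elim
  · intro n hn z hz h k1 k2
    have key : ∀ T : Set Ω, (n : G) • T = T → Cl Γ π R (f ⁻¹' {x | n • x ∈ h}) T →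
        Cl Γ π R (f ⁻¹' h) T := by
      rintro T e ⟨c, c1, d, d1, k⟩
      refine ⟨(n : G) • c, by rw [Set.mem_preimage, S.fe]; exact c1, (n : G) • d,
        e ▸ ⟨d, d1, rfl⟩, by rwa [S.pe, S.pe, S.dmul]⟩
    have := hz _ (half_smul S.med.1 S.xinv n k1) k2
    exact ⟨key T (h4 n hn).1 this.1, key U (h4 n hn).2 this.2⟩
  · obtain ⟨M, hM⟩ := S.close (hc0 δ κ R)
    obtain ⟨E, e1, e2⟩ := h5 (hc0 δ κ R)
    refine ⟨((e1.preimage' fun b _ => S.pfin b).biUnion fun c _ =>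
      ball_finite S.med.1 S.xlf (f c) M).toFinset, fun z hz => ?_⟩
    obtain ⟨c, rfl⟩ := S.fsurj z
    obtain ⟨p, hp⟩ := S.helly (κ := κ) (r := R)
      (insert T (insert U {A | ∃ h, IsHalf X h ∧ f c ∈ h ∧ A = f ⁻¹' h})) (by
        rintro A (rfl | rfl | ⟨h, k, -, rfl⟩)
        · exact h1
        · exact h2
        · exact hκ _ (S.half_mem k)) (by
        rintro A (rfl | rfl | ⟨h, k1, k2, rfl⟩) B (rfl | rfl | ⟨h', l1, l2, rfl⟩)
        · exact cl_of ⟨t, t1, t1⟩ _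
        · exact cl_mono h3 (by omega)
        · exact cl_symm (hz _ l1 l2).1
        · exact cl_mono (cl_symm h3) (by omega)
        · exact cl_of ⟨u, u1, u1⟩ _
        · exact cl_symm (hz _ l1 l2).2
        · exact (hz _ k1 k2).1
        · exact (hz _ k1 k2).2
        · exact cl_of ⟨c, k2, l2⟩ _) c ((Set.toFinite {T, U}).subset (by
        rintro A ⟨rfl | rfl | ⟨h, -, k, rfl⟩, l⟩
        · exact Or.inl rfl
        · exact Or.inr rfl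
        · exact (l k).elim))
    obtain ⟨n, n1, n2⟩ := e2 p (hp T (Or.inl rfl)) (hp U (Or.inr (Or.inl rfl)))
    obtain ⟨d, rfl⟩ := S.psurj p
    have := hM c d (π d) (π d) fun h k1 k2 k3 => Or.inl
      ⟨S.half_mem k1, hp _ (Or.inr (Or.inr ⟨h, k1, k2, rfl⟩)), near_self k3 _⟩
    refine ⟨n⁻¹, P.inv_mem n1, n • f c, ?_, by simp⟩
    rw [Set.Finite.mem_toFinset]
    refine Set.mem_biUnion (x := (n : G) • d) (by rwa [Set.mem_preimage, S.pe]) ?_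
    rw [Set.mem_ofPred_eq, S.fe, dist_smul S.med.1 S.xinv, dist_comm]
    exact this

end Pool.Agent.Lib.MP_a112e0_al
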