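import Pool.Agent.Lib.MP_a112e0_al.Median

/-! Hyperbolic graphs: coarse Helly property and the Morse lemma. -/

namespace Pool.Agent.Lib.MP_a112e0_al
open SimpleGraph

variable {α : Type*} {Γ : SimpleGraph α}

/-- four point condition with constant `δ` -/
def FourPt (Γ : SimpleGraph α) (δ : ℕ) : Prop :=
  ∀ x y z w, Γ.dist x y + Γ.dist z w ≤ max (Γ.dist x z + Γ.dist y w) (Γ.dist x w + Γ.dist y z) + δ

/-- quasiconvex with constant `κ` -/
def QC (Γ : SimpleGraph α) (κ : ℕ) (T : Set α) : Prop :=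
  ∀ a ∈ T, ∀ b ∈ T, ∀ m, Btw Γ a m b → ∃ t ∈ T, Γ.dist m t ≤ κ

theorem qc_mono {κ κ' : ℕ} (h : κ ≤ κ') {T : Set α} (hT : QC Γ κ T) : QC Γ κ' T := by
  intro a ha b hb m hm
  obtain ⟨t, h1, h2⟩ := hT a ha b hb m hm
  exact ⟨t, h1, h2.trans h⟩

theorem nat_min {β : Type*} (s : Set β) (f : β → ℕ) (hs : s.Nonempty) :
    ∃ a ∈ s, ∀ b ∈ s, f a ≤ f b :=
  ⟨Function.argminOn f s hs, Function.argminOn_mem f s hs, fun _ hb => Function.argminOn_le f s hb⟩

theorem nat_max {β : Type*} (s : Set β) (f : β → ℕ) (hs : s.Nonempty) (M : ℕ)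
    (hM : ∀ b ∈ s, f b ≤ M) : ∃ a ∈ s, ∀ b ∈ s, f b ≤ f a := by
  obtain ⟨a, h1, h2⟩ := nat_min s (fun b => M - f b) hs
  refine ⟨a, h1, fun b hb => ?_⟩
  have := h2 b hb
  have := hM b hb
  have := hM a h1
  omega

theorem exists_btw (hc : Γ.Connected) (a b : α) (t : ℕ) (ht : t ≤ Γ.dist a b) :
    ∃ m, Γ.dist a m + t = Γ.dist a b ∧ Γ.dist m b = t := by
  induction t with
  | zero => exact ⟨b, by simp, by simp⟩
  | succ t ih =>
    obtain ⟨m, h1, h2⟩ := ih (by omega)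
    obtain ⟨u, h3, h4⟩ := exists_pred hc a m (Γ.dist a m - 1) (by omega)
    have h5 := dist_adj h3
    have h6 : Γ.dist u b ≤ Γ.dist u m + Γ.dist m b := hc.dist_triangle
    have h7 : Γ.dist a b ≤ Γ.dist a u + Γ.dist u b := hc.dist_triangle
    exact ⟨u, by omega, by omega⟩

theorem proj_lemma (hc : Γ.Connected) {δ κ : ℕ} (hδ : FourPt Γ δ) {T : Set α} (hT : QC Γ κ T)
    {o p a : α} (hp : p ∈ T) (ha : a ∈ T) (hmin : ∀ t ∈ T, Γ.dist o p ≤ Γ.dist o t) :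
    Γ.dist o p + Γ.dist p a ≤ Γ.dist o a + 2 * (δ + κ) + 1 := by
  have t1 : Γ.dist o p ≤ Γ.dist o a := hmin a ha
  obtain ⟨m, h1, h2⟩ := exists_btw hc a p ((Γ.dist o p + Γ.dist p a - Γ.dist o a) / 2) (by
    rw [dist_comm (u := a)]; omega)
  obtain ⟨t, h3, h4⟩ := hT a ha p hp m (by unfold Btw; omega)
  have h5 := hmin t h3
  have h6 : Γ.dist o t ≤ Γ.dist o m + Γ.dist m t := hc.dist_triangle
  have h7 := hδ o m p a
  have s1 : Γ.dist m a = Γ.dist a m := dist_comm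
  have s2 : Γ.dist a p = Γ.dist p a := dist_comm
  have t2 : Γ.dist o a ≤ Γ.dist o p + Γ.dist p a := hc.dist_triangle
  omega

/-- the constant of the coarse Helly property -/
def hc0 (δ κ r : ℕ) : ℕ := 2 * r + 5 * δ + 5 * κ + 2

theorem helly (hc : Γ.Connected) {δ κ r : ℕ} (hδ : FourPt Γ δ) (𝒯 : Set (Set α))
    (hT : ∀ T ∈ 𝒯, QC Γ κ T)
    (hr : ∀ T ∈ 𝒯, ∀ T' ∈ 𝒯, ∃ a ∈ T, ∃ b ∈ T', Γ.dist a b ≤ r) (o : α) (M : ℕ)
    (hM : ∀ T ∈ 𝒯, ∃ t ∈ T, Γ.dist o t ≤ M) :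
    ∃ p, ∀ T ∈ 𝒯, ∃ t ∈ T, Γ.dist p t ≤ hc0 δ κ r := by
  rcases 𝒯.eq_empty_or_nonempty with rfl | hne
  · exact ⟨o, fun T hT => hT.elim⟩
  have hn : ∀ T : Set α, ∃ p, T ∈ 𝒯 → p ∈ T ∧ ∀ t ∈ T, Γ.dist o p ≤ Γ.dist o t := by
    intro T
    by_cases h : T ∈ 𝒯
    · obtain ⟨t, ht, _⟩ := hM T h
      obtain ⟨p, h1, h2⟩ := nat_min T (fun t => Γ.dist o t) ⟨t, ht⟩
      exact ⟨p, fun _ => ⟨h1, h2⟩⟩
    · exact ⟨o, fun k => (h k).elim⟩
  choose n hn using hn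
  obtain ⟨T1, h1, hmax⟩ := nat_max 𝒯 (fun T => Γ.dist o (n T)) hne M (by
    intro T h
    obtain ⟨t, ht, k⟩ := hM T h
    exact ((hn T h).2 t ht).trans k)
  refine ⟨n T1, fun T h => ?_⟩
  obtain ⟨a, ha, b, hb, hab⟩ := hr T1 h1 T h
  have e1 := proj_lemma hc hδ (hT T1 h1) (hn T1 h1).1 ha (hn T1 h1).2
  have e2 := proj_lemma hc hδ (hT T h) (hn T h).1 hb (hn T h).2
  have e3 : Γ.dist o (n T) ≤ Γ.dist o (n T1) := hmax T h
  generalize n T1 = p at *
  obtain ⟨m, m1, m2⟩ := exists_btw hc (n T) b (min (Γ.dist p a) (Γ.dist (n T) b)) (min_le_right _ _)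
  obtain ⟨t, t1, t2⟩ := hT T h _ (hn T h).1 b hb m (by unfold Btw; omega)
  refine ⟨t, t1, ?_⟩
  generalize n T = q at *
  have f := hδ p m o b
  have s1 : Γ.dist p o = Γ.dist o p := dist_comm
  have s2 : Γ.dist m o = Γ.dist o m := dist_comm
  have s3 : Γ.dist b a = Γ.dist a b := dist_comm
  have t3 : Γ.dist p t ≤ Γ.dist p m + Γ.dist m t := hc.dist_triangle
  have t4 : Γ.dist o a ≤ Γ.dist o b + Γ.dist b a := hc.dist_triangle
  have t5 : Γ.dist o m ≤ Γ.dist o q + Γ.dist q m := hc.dist_triangle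
  have t6 : Γ.dist p b ≤ Γ.dist p a + Γ.dist a b := hc.dist_triangle
  have t7 : Γ.dist o b ≤ Γ.dist o q + Γ.dist q b := hc.dist_triangle
  unfold hc0
  omega

theorem log_lemma {δ : ℕ} (hδ : FourPt Γ δ) (m : α) (y : ℕ → α) (B : ℕ) :
    ∀ (k i j : ℕ), i ≤ j → j ≤ i + 2 ^ k →
      (∀ l, i ≤ l → l ≤ j → B ≤ 2 * Γ.dist (y l) m) →
      (∀ l, i ≤ l → l < j → Γ.dist (y l) (y (l + 1)) + B ≤ Γ.dist (y l) m + Γ.dist (y (l + 1)) m) →
      Γ.dist (y i) (y j) + B ≤ Γ.dist (y i) m + Γ.dist (y j) m + k * δ := by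
  intro k
  induction k with
  | zero =>
    intro i j h1 h2 h3 h4
    rcases Nat.eq_or_lt_of_le h1 with rfl | h
    · have := h3 i le_rfl le_rfl
      simp only [dist_self]; omega
    · have : j = i + 1 := by omega
      subst this
      have := h4 i le_rfl h
      omega
  | succ k ih =>
    intro i j h1 h2 h3 h4
    rw [pow_succ] at h2
    have a1 := ih i (min j (i + 2 ^ k)) (by omega) (by omega)
      (fun l a b => h3 l a (by omega)) (fun l a b => h4 l a (by omega))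
    have a2 := ih (min j (i + 2 ^ k)) j (by omega) (by omega)
      (fun l a b => h3 l (by omega) b) (fun l a b => h4 l (by omega) b)
    generalize y (min j (i + 2 ^ k)) = c at *
    have f := hδ (y i) (y j) m c
    have s1 : Γ.dist m c = Γ.dist c m := dist_comm
    have s2 : Γ.dist (y j) c = Γ.dist c (y j) := dist_comm
    rw [Nat.succ_mul]
    omega

theorem exp_bound (L δ : ℕ) : ∃ D0, ∀ D, D0 ≤ D → ∃ k, L * (6 * D + 1) ≤ 2 ^ k ∧
    L + (k + 2) * δ < 2 * D := by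
  refine ⟨(δ + 1) * (L * (12 * (δ + 1) + 1) + 4) + L + 2 * δ + 1, fun D hD => ⟨D / (δ + 1), ?_, ?_⟩⟩
  · have h1 : L * (12 * (δ + 1) + 1) + 4 ≤ D / (δ + 1) := by
      rw [Nat.le_div_iff_mul_le (by omega), mul_comm]; omega
    have h2 : D < (δ + 1) * (D / (δ + 1) + 1) := Nat.lt_mul_div_succ D (by omega)
    generalize D / (δ + 1) = k at *
    have h3 : ∀ k, 4 ≤ k → k * k ≤ 2 ^ k := by
      intro k hk
      induction k, hk using Nat.le_induction with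
      | base => norm_num
      | succ k hk ih => rw [pow_succ]; nlinarith
    have h5 : (δ + 1) * (k + 1) ≤ (δ + 1) * (2 * k) := Nat.mul_le_mul_left _ (by omega)
    have h4 : 6 * D + 1 ≤ (12 * (δ + 1) + 1) * k := by nlinarith
    calc L * (6 * D + 1) ≤ L * ((12 * (δ + 1) + 1) * k) := Nat.mul_le_mul_left _ h4
      _ = L * (12 * (δ + 1) + 1) * k := by ring
      _ ≤ k * k := Nat.mul_le_mul_right _ (by omega)
      _ ≤ 2 ^ k := h3 k (by omega)
  · have h2 : D / (δ + 1) * (δ + 1) ≤ D := Nat.div_mul_le_self _ _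
    have h3 : L + 2 * δ + 1 ≤ D := by omega
    nlinarith

/-- geodesics stay close to quasi-geodesics with the same endpoints -/
theorem morse (hc : Γ.Connected) {δ : ℕ} (hδ : FourPt Γ δ) (L : ℕ) : ∃ D0, ∀ (y : ℕ → α) (n : ℕ),
    (∀ l < n, Γ.dist (y l) (y (l + 1)) ≤ L) →
    (∀ i ≤ n, ∀ j ≤ n, j ≤ i + L * (Γ.dist (y i) (y j) + 1)) →
    ∀ m, Btw Γ (y 0) m (y n) → ∃ i ≤ n, Γ.dist m (y i) ≤ D0 := by
  obtain ⟨D0, hD0⟩ := exp_bound L δ
  refine ⟨D0, fun y n h1 h2 => ?_⟩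
  have hn : ∀ m : α, ∃ i ≤ n, ∀ j ≤ n, Γ.dist m (y i) ≤ Γ.dist m (y j) :=
    fun m => nat_min {i | i ≤ n} (fun i => Γ.dist m (y i)) ⟨0, Nat.zero_le _⟩
  choose c c1 c2 using hn
  obtain ⟨m, m1, m2⟩ := nat_max {m | Btw Γ (y 0) m (y n)} (fun m => Γ.dist m (y (c m)))
    ⟨y 0, by simp [Btw]⟩ (Γ.dist (y 0) (y n)) (by
      intro m hm
      have := c2 m n le_rfl
      have hm' : Γ.dist (y 0) m + Γ.dist m (y n) = Γ.dist (y 0) (y n) := hm
      omega)
  suffices h : Γ.dist m (y (c m)) ≤ D0 from fun m' hm' => ⟨c m', c1 m', (m2 m' hm').trans h⟩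
  by_contra hcon
  obtain ⟨k, k1, k2⟩ := hD0 (Γ.dist m (y (c m))) (by omega)
  have far : ∀ j ≤ n, Γ.dist m (y (c m)) ≤ Γ.dist (y j) m := fun j hj => by
    rw [dist_comm (u := y j)]; exact c2 m j hj
  have m1' : Γ.dist (y 0) m + Γ.dist m (y n) = Γ.dist (y 0) (y n) := m1
  have key : ∀ a, (a = y 0 ∨ a = y n) → ∃ u, ∃ i ≤ n, Γ.dist a u + Γ.dist u m = Γ.dist a m ∧
      Γ.dist u m ≤ 2 * Γ.dist m (y (c m)) ∧ Γ.dist u (y i) ≤ Γ.dist m (y (c m)) ∧
      Γ.dist u (y i) + 2 * Γ.dist m (y (c m)) ≤ Γ.dist u m + Γ.dist (y i) m := by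
    intro a ha
    by_cases h : 2 * Γ.dist m (y (c m)) ≤ Γ.dist a m
    · obtain ⟨u, u1, u2⟩ := exists_btw hc a m _ h
      have hu : Btw Γ (y 0) u (y n) := by
        have t1 : Γ.dist (y 0) (y n) ≤ Γ.dist (y 0) u + Γ.dist u (y n) := hc.dist_triangle
        have t2 : Γ.dist u (y n) ≤ Γ.dist u m + Γ.dist m (y n) := hc.dist_triangle
        have t3 : Γ.dist (y 0) u ≤ Γ.dist (y 0) m + Γ.dist m u := hc.dist_triangle
        have s1 : Γ.dist m u = Γ.dist u m := dist_comm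
        have s2 : Γ.dist (y n) u = Γ.dist u (y n) := dist_comm
        have s3 : Γ.dist (y n) m = Γ.dist m (y n) := dist_comm
        unfold Btw
        rcases ha with rfl | rfl <;> omega
      have a1 : Γ.dist u (y (c u)) ≤ Γ.dist m (y (c m)) := m2 u hu
      have a2 := far _ (c1 u)
      exact ⟨u, c u, c1 u, by omega, by omega, a1, by omega⟩
    · rcases ha with rfl | rfl
      · have := far 0 (Nat.zero_le _)
        exact ⟨y 0, 0, Nat.zero_le _, by simp, by omega, by simp, by simp; omega⟩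
      · have := far n le_rfl
        exact ⟨y n, n, le_rfl, by simp, by omega, by simp, by simp; omega⟩
  obtain ⟨u, i, hi, u1, u2, u3, u4⟩ := key _ (Or.inl rfl)
  obtain ⟨v, j, hj, v1, v2, v3, v4⟩ := key _ (Or.inr rfl)
  generalize Γ.dist m (y (c m)) = D at *
  have s1 : Γ.dist (y n) v = Γ.dist v (y n) := dist_comm
  have s2 : Γ.dist (y n) m = Γ.dist m (y n) := dist_comm
  have s3 : Γ.dist m v = Γ.dist v m := dist_comm
  have s4 : Γ.dist (y i) u = Γ.dist u (y i) := dist_comm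
  have s5 : Γ.dist (y j) (y i) = Γ.dist (y i) (y j) := dist_comm
  have s6 : Γ.dist m (y j) = Γ.dist (y j) m := dist_comm
  have s7 : Γ.dist (y j) v = Γ.dist v (y j) := dist_comm
  have s8 : Γ.dist m (y i) = Γ.dist (y i) m := dist_comm
  have t1 : Γ.dist (y 0) (y n) ≤ Γ.dist (y 0) u + Γ.dist u (y n) := hc.dist_triangle
  have t2 : Γ.dist u (y n) ≤ Γ.dist u v + Γ.dist v (y n) := hc.dist_triangle
  have t3 : Γ.dist u v ≤ Γ.dist u m + Γ.dist m v := hc.dist_triangle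
  have t4 : Γ.dist (y i) (y j) ≤ Γ.dist (y i) u + Γ.dist u (y j) := hc.dist_triangle
  have t5 : Γ.dist u (y j) ≤ Γ.dist u v + Γ.dist v (y j) := hc.dist_triangle
  have b1 : L * (Γ.dist (y i) (y j) + 1) ≤ 2 ^ k :=
    (Nat.mul_le_mul_left _ (by omega)).trans k1
  have lg : ∀ i j, i ≤ j → j ≤ n → j ≤ i + 2 ^ k →
      Γ.dist (y i) (y j) + (2 * D - L) ≤ Γ.dist (y i) m + Γ.dist (y j) m + k * δ := by
    intro i j a b e
    refine log_lemma hδ m y _ k i j a e (fun l _ _ => ?_) (fun l _ _ => ?_)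
    · have := far l (by omega); omega
    · have := far l (by omega)
      have := far (l + 1) (by omega)
      have := h1 l (by omega)
      omega
  have lg2 : Γ.dist (y i) (y j) + (2 * D - L) ≤ Γ.dist (y i) m + Γ.dist (y j) m + k * δ := by
    rcases le_total i j with h | h
    · exact lg i j h hj ((h2 i hi j hj).trans (by omega))
    · have := lg j i h hi ((h2 j hj i hi).trans (by rw [s5]; omega))
      omega
  have f1 := hδ u (y j) m (y i)
  have f2 := hδ u v m (y j)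
  rw [add_mul] at k2
  omega

end Pool.Agent.Lib.MP_a112e0_al
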