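import Pool.Agent.Lib.MP_a112e0_al.Median
import Pool.Agent.Lib.MP_a112e0_al.Chain

/-! The twisted imitator: convex cocompact subgroups are virtual retracts. -/

namespace Pool.Agent.Lib.MP_a112e0_al
open Relation

variable {V : Type*} {X : SimpleGraph V} {G : Type*} [Group G] [MulAction G V] {N : Subgroup G}

theorem par_refl (e : V × V) : Par X N e e := EqvGen.refl _
theorem par_symm {e f : V × V} (h : Par X N e f) : Par X N f e := EqvGen.symm _ _ h
theorem par_trans {e f g : V × V} (h : Par X N e f) (k : Par X N f g) : Par X N e g :=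
  EqvGen.trans _ _ _ h k

theorem par_sq {a b c d : V} (h : IsSquare X a b c d) : Par X N (a, b) (d, c) :=
  EqvGen.rel _ _ (Or.inl h)

theorem sq_rot {a b c d : V} (h : IsSquare X a b c d) : IsSquare X b c d a :=
  ⟨h.2.1, h.2.2.1, h.2.2.2.1, h.1, h.2.2.2.2.2, h.2.2.2.2.1.symm⟩

theorem sq_rev {a b c d : V} (h : IsSquare X a b c d) : IsSquare X b a d c :=
  ⟨h.1.symm, h.2.2.2.1.symm, h.2.2.1.symm, h.2.1.symm, h.2.2.2.2.2, h.2.2.2.2.1⟩

theorem par_mem {n : G} (hn : n ∈ N) (a b : V) : Par X N (a, b) (n • a, n • b) :=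
  EqvGen.rel _ _ (Or.inr ⟨n, hn, rfl⟩)

theorem par_swap {e f : V × V} (h : Par X N e f) : Par X N e.swap f.swap := by
  induction h with
  | rel e f h =>
    rcases h with h | ⟨n, hn, rfl⟩
    · exact EqvGen.rel _ _ (Or.inl (sq_rev h))
    · exact par_mem hn _ _
  | refl => exact par_refl _
  | symm _ _ _ ih => exact par_symm ih
  | trans _ _ _ _ _ ih1 ih2 => exact par_trans ih1 ih2

theorem par_mono {M : Subgroup G} (hM : M ≤ N) {e f : V × V} (h : Par X M e f) : Par X N e f :=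
  by
  induction h with
  | rel e f h => exact EqvGen.rel _ _ (h.imp id fun ⟨n, hn, k⟩ => ⟨n, hM hn, k⟩)
  | refl => exact par_refl _
  | symm _ _ _ ih => exact par_symm ih
  | trans _ _ _ _ _ ih1 ih2 => exact par_trans ih1 ih2

theorem special_mono {M : Subgroup G} (hM : M ≤ N) (h : ActsSpecially X N) : ActsSpecially X M :=
  ⟨fun n hn => h.1 n (hM hn), fun v a b h1 h2 h3 => h.2.1 v a b h1 h2 (par_mono hM h3),
    fun v a b p q r s h1 h2 h3 h4 h5 h6 =>
      h.2.2 v a b p q r s h1 h2 h3 h4 (par_mono hM h5) (par_mono hM h6)⟩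

theorem par_smul [hN : N.Normal] (hG : ∀ (g : G) u v, X.Adj u v → X.Adj (g • u) (g • v)) (g : G)
    {e f : V × V} (h : Par X N e f) : Par X N (g • e.1, g • e.2) (g • f.1, g • f.2) := by
  induction h with
  | rel e f h =>
    rcases h with ⟨h1, h2, h3, h4, h5, h6⟩ | ⟨n, hn, rfl⟩
    · exact par_sq ⟨hG g _ _ h1, hG g _ _ h2, hG g _ _ h3, hG g _ _ h4,
        fun k => h5 (MulAction.injective g k), fun k => h6 (MulAction.injective g k)⟩
    · have := par_mem (X := X) (hN.conj_mem n hn g) (g • e.1) (g • e.2)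
      simpa [mul_smul] using this
  | refl => exact par_refl _
  | symm _ _ _ ih => exact par_symm ih
  | trans _ _ _ _ _ ih1 ih2 => exact par_trans ih1 ih2

/-- moving inside `C` along an edge of the class of `e` -/
def Rl (X : SimpleGraph V) (N : Subgroup G) (C : Set V) (e : V × V) (x y : V) : Prop :=
  x ∈ C ∧ y ∈ C ∧ X.Adj x y ∧ Par X N (x, y) e

variable {C : Set V}

theorem rl_congr {e f : V × V} (h : Par X N e f) : Rl X N C e = Rl X N C f := by
  funext x y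
  exact propext ⟨fun ⟨a, b, c, d⟩ => ⟨a, b, c, par_trans d h⟩,
    fun ⟨a, b, c, d⟩ => ⟨a, b, c, par_trans d (par_symm h)⟩⟩

theorem rl_flip (u v : V) : flip (Rl X N C (u, v)) = Rl X N C (v, u) := by
  funext x y
  exact propext ⟨fun ⟨a, b, c, d⟩ => ⟨b, a, c.symm, par_swap d⟩,
    fun ⟨a, b, c, d⟩ => ⟨b, a, c.symm, par_swap d⟩⟩

theorem rl_ru (hN : ActsSpecially X N) (e : V × V) : RU (Rl X N C e) :=
  fun x y z h k => hN.2.1 x y z h.2.2.1 k.2.2.1 (par_trans h.2.2.2 (par_symm k.2.2.2))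

theorem rl_sq (hX : IsMedianGraph X) (hN : ActsSpecially X N) (hC : IsConvexIn X C) {p q r s : V}
    (h : IsSquare X p q r s) : SQ (Rl X N C (p, q)) (Rl X N C (p, s)) := by
  rintro x y z ⟨a1, a2, a3, a4⟩ ⟨_, b2, b3, b4⟩
  have hyz : y ≠ z := by
    rintro rfl
    exact h.2.2.2.2.2 (hN.2.1 p q s h.1 h.2.2.2.1.symm (par_trans (par_symm a4) b4))
  obtain ⟨w, hw⟩ := hN.2.2 x y z p q r s a3 b3 hyz h a4 b4
  have wC := square_mem hX hC hw a2 b2
  exact ⟨w, ⟨a2, wC, hw.2.1, par_trans (par_sq (sq_rot hw)) b4⟩,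
    ⟨b2, wC, hw.2.2.1.symm, par_trans (par_symm (par_sq hw)) a4⟩⟩

theorem rl_sq4 (hX : IsMedianGraph X) (hN : ActsSpecially X N) (hC : IsConvexIn X C) {p q r s : V}
    (h : IsSquare X p q r s) : SQ4 (Rl X N C (p, q)) (Rl X N C (p, s)) := by
  have e1 : Par X N (q, r) (p, s) := par_sq (sq_rot h)
  have e2 : Par X N (p, q) (s, r) := par_sq h
  refine ⟨rl_sq hX hN hC h, ?_, ?_, ?_⟩
  · rw [rl_flip, ← rl_congr e1]; exact rl_sq hX hN hC (sq_rev h)
  · rw [rl_flip, rl_congr e2]; exact rl_sq hX hN hC (sq_rev (sq_rot (sq_rot h)))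
  · have e3 : Par X N (q, p) (r, s) := par_swap e2
    have e4 : Par X N (r, q) (s, p) := par_swap e1
    rw [rl_flip, rl_flip, rl_congr e3, ← rl_congr e4]
    exact rl_sq hX hN hC (sq_rot (sq_rot h))

theorem rl_smul [N.Normal] (hG : ∀ (g : G) u v, X.Adj u v → X.Adj (g • u) (g • v))
    {H : Subgroup G} (hH : ∀ h ∈ H, ∀ c ∈ C, h • c ∈ C) {k n : G} (hk : k ∈ H) (hn : n ∈ N)
    {u v x y : V} (h : Rl X N C (u, v) x y) :
    Rl X N C ((n * k) • u, (n * k) • v) (k • x) (k • y) := by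
  refine ⟨hH k hk _ h.1, hH k hk _ h.2.1, hG k _ _ h.2.2.1, ?_⟩
  have := par_trans (par_smul hG k h.2.2.2) (par_mem hn _ _)
  simpa [mul_smul] using this

/-- the group theoretic part -/
theorem retract_of_transport [hN : N.Normal] [N.FiniteIndex] {H : Subgroup G} (c : G → V)
    (hfree : ∀ n ∈ N, n • c 1 = c 1 → n = 1) (hH : ∀ h ∈ H, c h = h • c 1) (F : Finset V)
    (hF : ∀ g, ∃ h ∈ H, ∃ f ∈ F, c g = h • f)
    (key : ∀ k ∈ H, ∀ n ∈ N, ∀ a b, c (n * k * a) = k • c a → c (n * k * a * b) = k • c (a * b)) :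
    IsVirtualRetract H := by
  let R : G → G → G → Prop := fun k a g => k ∈ H ∧ g * (k * a)⁻¹ ∈ N ∧ c g = k • c a
  have Rmul : ∀ k a g b, R k a g → R k (a * b) (g * b) := by
    rintro k a g b ⟨h1, h2, h3⟩
    refine ⟨h1, by simpa [mul_assoc] using h2, ?_⟩
    have e : g = g * (k * a)⁻¹ * k * a := by group
    have := key k h1 _ h2 a b (by rw [← e]; exact h3)
    rwa [← e] at this
  have Rtr : ∀ k k' a g g', R k a g → R k' g g' → R (k' * k) a g' := by
    rintro k k' a g g' ⟨h1, h2, h3⟩ ⟨k1, k2, k3⟩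
    refine ⟨H.mul_mem k1 h1, ?_, by rw [k3, h3, mul_smul]⟩
    have := N.mul_mem k2 (hN.conj_mem _ h2 k')
    convert this using 1
    group
  have Rsy : ∀ k a g, R k a g → R k⁻¹ g a := by
    rintro k a g ⟨h1, h2, h3⟩
    refine ⟨H.inv_mem h1, ?_, by rw [h3, inv_smul_smul]⟩
    have := hN.conj_mem _ (N.inv_mem h2) k⁻¹
    convert this using 1
    group
  have Run : ∀ k k' g, R k 1 g → R k' 1 g → k = k' := by
    intro k k' g h1 h2
    obtain ⟨_, a, b⟩ := Rtr _ _ _ _ _ h1 (Rsy _ _ _ h2)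
    have := hfree _ (by simpa using N.inv_mem a) b.symm
    exact (inv_mul_eq_one.1 this).symm
  have RH : ∀ h ∈ H, R h 1 h := fun h hh => ⟨hh, by simp, hH h hh⟩
  have Rm : ∀ k k' g g', R k 1 g → R k' 1 g' → R (k * k') 1 (g * g') := by
    intro k k' g g' h1 h2
    have := Rmul _ _ _ g' h1
    rw [one_mul] at this
    exact Rtr _ _ _ _ _ h2 this
  let K : Subgroup G :=
    { carrier := {g | ∃ k, R k 1 g}
      mul_mem' := fun ⟨k, h1⟩ ⟨k', h2⟩ => ⟨_, Rm _ _ _ _ h1 h2⟩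
      one_mem' := ⟨1, RH 1 H.one_mem⟩
      inv_mem' := by
        rintro g ⟨k, h⟩
        have := Rmul _ _ _ g⁻¹ h
        rw [one_mul, mul_inv_cancel] at this
        exact ⟨_, Rsy _ _ _ this⟩ }
  have hK : ∀ g : K, ∃ k, R k 1 g := fun g => g.2
  choose ρ hρ using hK
  refine ⟨K, ?_, fun h hh => ⟨h, RH h hh⟩, MonoidHom.mk' (fun g => ⟨ρ g, (hρ g).1⟩) ?_, ?_⟩
  · choose h hh f hf e using hF
    let col : G → (G ⧸ N) × F := fun g => ((((h g⁻¹)⁻¹ * g⁻¹ : G) : G ⧸ N), ⟨f g⁻¹, hf _⟩)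
    have hcol : ∀ g g', col g = col g' → (g : G ⧸ K) = g' := by
      intro g g' hc
      obtain ⟨c1, c2⟩ := Prod.ext_iff.1 hc
      have c3 : f g⁻¹ = f g'⁻¹ := congrArg Subtype.val c2
      have c4 := QuotientGroup.eq.1 c1
      have r : R (h g⁻¹ * (h g'⁻¹)⁻¹) g'⁻¹ g⁻¹ := by
        refine ⟨H.mul_mem (hh _) (H.inv_mem (hh _)), ?_, ?_⟩
        · have := hN.conj_mem _ (N.inv_mem c4) g⁻¹
          convert this using 1
          group
        · rw [e g⁻¹, e g'⁻¹, c3, mul_smul, inv_smul_smul]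
      have := Rmul _ _ _ g' r
      rw [inv_mul_cancel] at this
      exact QuotientGroup.eq.2 ⟨_, this⟩
    have : Finite (G ⧸ K) := by
      refine Finite.of_injective (fun q : G ⧸ K => col q.out) fun q q' hq => ?_
      have := hcol _ _ hq
      simpa using this
    exact Subgroup.finiteIndex_of_finite_quotient
  · intro a b
    exact Subtype.ext (Run _ _ _ (hρ (a * b)) (Rm _ _ _ _ (hρ a) (hρ b)))
  · intro h
    exact Subtype.ext (Run _ _ _ (hρ ⟨h, _⟩) (RH h h.2))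

theorem main_normal (hX : IsMedianGraph X)
    (hG : ∀ (g : G) u v, X.Adj u v → X.Adj (g • u) (g • v)) [hn : N.Normal] [N.FiniteIndex]
    (hN : ActsSpecially X N) {H : Subgroup G} {x : V} (hx : x ∈ C) (hC : IsConvexIn X C)
    (hH : ∀ h ∈ H, ∀ c ∈ C, h • c ∈ C) (F : Finset V)
    (hF : ∀ c ∈ C, ∃ h ∈ H, ∃ f ∈ F, c = h • f) : IsVirtualRetract H := by
  have tot : ∀ e x, ∃ y, Cp (Rl X N C e) x y := by
    intro e
    have hF' : ∀ c, ∃ h ∈ H, ∃ f : Option F, c ∈ C → ∃ f' : F, f = some f' ∧ c = h • f'.1 := by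
      intro c
      by_cases hc : c ∈ C
      · obtain ⟨h, a, f, b, d⟩ := hF c hc
        exact ⟨h, a, some ⟨f, b⟩, fun _ => ⟨⟨f, b⟩, rfl, d⟩⟩
      · exact ⟨1, H.one_mem, none, fun k => (hc k).elim⟩
    choose h hh f hf using hF'
    refine cp_total (rl_ru hN e) (fun c => ((h c : G ⧸ N), f c)) ?_
    rintro a b ⟨_, ha, _⟩ ⟨_, hb, _⟩ hc
    obtain ⟨c1, c2⟩ := Prod.ext_iff.1 hc
    obtain ⟨f1, a1, a2⟩ := hf a ha
    obtain ⟨f2, b1, b2⟩ := hf b hb
    have c3 : f1 = f2 := by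
      have : some f1 = some f2 := by rw [← a1, ← b1]; exact c2
      exact Option.some.inj this
    have c4 : h b * (h a)⁻¹ ∈ N := by
      have := hn.conj_mem _ (QuotientGroup.eq.1 c1) (h a)
      convert this using 1
      group
    have c5 := H.mul_mem (hh b) (H.inv_mem (hh a))
    refine ⟨fun z => (h b * (h a)⁻¹) • z, ?_, ?_⟩
    · intro u v k
      have := rl_smul hG hH c5 (N.inv_mem c4) (u := e.1) (v := e.2) k
      simpa using this
    · subst c3
      show (h b * (h a)⁻¹) • a = b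
      rw [mul_smul, inv_smul_eq_iff.2 a2]
      exact b2.symm
  have ex : ∀ u v : V, ∃ σ : Equiv.Perm V, ∀ a b, σ a = b ↔ Cp (Rl X N C (u, v)) a b := by
    intro u v
    have r1 := rl_ru (C := C) hN (u, v)
    have r2 : RU (flip (Rl X N C (u, v))) := by rw [rl_flip]; exact rl_ru hN _
    refine exists_perm (ru_cp r1 r2) ?_ (tot _) fun y => ?_
    · rw [← cp_flip]; exact ru_cp r2 r1
    · have := tot (v, u) y
      rwa [← rl_flip, cp_flip] at this
  choose τ hτ using ex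
  have tcongr : ∀ a b c d, Par X N (a, b) (c, d) → τ a b = τ c d := by
    intro a b c d h
    ext z
    rw [hτ, rl_congr h, ← hτ]
  obtain ⟨P, -, hP⟩ := exists_potential hX τ (by
    intro u v _
    ext z
    have := (hτ u v z _).1 rfl
    rw [Equiv.Perm.mul_apply, Equiv.Perm.one_apply, hτ, ← rl_flip, cp_flip]
    exact this) (by
    intro a b c d h
    rw [tcongr b c a d (par_sq (sq_rot h)), ← tcongr a b d c (par_sq h)]
    ext z
    obtain ⟨w, w1, w2⟩ := sq_cp_cp (rl_sq4 hX hN hC h) z _ _ ((hτ a b z _).1 rfl)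
      ((hτ a d z _).1 rfl)
    rw [Equiv.Perm.mul_apply, Equiv.Perm.mul_apply, (hτ _ _ _ _).2 w1, (hτ _ _ _ _).2 w2]) x
  have teq : ∀ k ∈ H, ∀ n ∈ N, ∀ u v z, τ ((n * k) • u) ((n * k) • v) (k • z) = k • τ u v z := by
    intro k hk n hn' u v z
    rw [hτ]
    refine cp_map (MulAction.toPerm k) (fun a b => ⟨fun h => ?_, rl_smul hG hH hk hn'⟩)
      ((hτ u v z _).1 rfl)
    have := rl_smul hG hH (H.inv_mem hk) (hn.conj_mem _ (N.inv_mem hn') k⁻¹) h
    simpa [smul_smul] using this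
  have T : ∀ k ∈ H, ∀ n ∈ N, ∀ u z z', P ((n * k) • u) z' = k • P u z →
      ∀ v, P ((n * k) • v) z' = k • P v z := by
    intro k hk n hn' u z z' h0
    refine conn_ind hX.1 u h0 fun a b hab ih => ?_
    rw [hP _ _ (hG (n * k) _ _ hab), hP _ _ hab, Equiv.Perm.mul_apply, Equiv.Perm.mul_apply, ih,
      teq k hk n hn']
  obtain ⟨z, hz⟩ := (P x).surjective x
  have inC : ∀ v ∈ C, P v z = v := by
    refine convex_ind hX.1 hC hx hz fun u v hu hv huv ih => ?_
    rw [hP _ _ huv, Equiv.Perm.mul_apply, ih, hτ]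
    exact Or.inl ⟨hu, hv, huv, par_refl _⟩
  have memC : ∀ v, P v z ∈ C := by
    refine conn_ind hX.1 x (by rw [hz]; exact hx) fun u v huv ih => ?_
    rw [hP _ _ huv, Equiv.Perm.mul_apply]
    rcases (hτ u v (P u z) _).1 rfl with h | ⟨_, _, h⟩
    · exact h.2.1
    · rcases h.cases_head with h | ⟨_, h, _⟩
      · rw [h]; exact ih
      · exact h.1
  refine retract_of_transport (N := N) (fun g => P (g • x) z) (fun n h1 h2 => hN.1 n h1 _ h2)
    (fun h hh => ?_) F (fun g => hF _ (memC _)) fun k hk n hn' a b h => ?_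
  · rw [one_smul, hz, inC _ (hH h hh x hx)]
  · have := T k hk n hn' (a • x) z z (by rw [← mul_smul]; exact h) ((a * b) • x)
    rw [← mul_smul, ← mul_assoc] at this
    exact this

theorem main (hX : IsMedianGraph X) (hG : ∀ (g : G) u v, X.Adj u v → X.Adj (g • u) (g • v))
    [N.FiniteIndex] (hN : ActsSpecially X N) {H : Subgroup G} (hne : C.Nonempty)
    (hC : IsConvexIn X C) (hH : ∀ h ∈ H, ∀ c ∈ C, h • c ∈ C) (F : Finset V)
    (hF : ∀ c ∈ C, ∃ h ∈ H, ∃ f ∈ F, c = h • f) : IsVirtualRetract H :=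
  main_normal (N := N.normalCore) hX hG (special_mono N.normalCore_le hN) hne.some_mem hC hH F hF

end Pool.Agent.Lib.MP_a112e0_al
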