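import Pool.Agent.Lib.MP_a112e0_al.Defs

/-! Path independence in median graphs. -/

namespace Pool.Agent.Lib.MP_a112e0_al
open SimpleGraph

variable {V : Type*} {X : SimpleGraph V}

theorem conn_ind (hc : X.Connected) {Q : V → Prop} (x : V) (h0 : Q x)
    (hs : ∀ u v, X.Adj u v → Q u → Q v) (v : V) : Q v := by
  obtain ⟨p⟩ := hc.preconnected x v
  induction p with
  | nil => exact h0
  | cons h _ ih => exact ih (hs _ _ h h0)

theorem adj_of_dist {u v : V} (h : X.dist u v = 1) : X.Adj u v :=
  dist_eq_one_iff_adj.1 h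

theorem dist_adj {u v : V} (h : X.Adj u v) : X.dist u v = 1 := dist_eq_one_iff_adj.2 h

theorem bip (hX : IsMedianGraph X) (x : V) {u v : V} (h : X.Adj u v) :
    X.dist x v = X.dist x u + 1 ∨ X.dist x u = X.dist x v + 1 := by
  obtain ⟨m, ⟨h1, h2, h3⟩, _⟩ := hX.2 x u v
  unfold Btw at h1 h2 h3
  have e := dist_adj h
  have s1 : X.dist m u = X.dist u m := dist_comm
  omega

theorem quad (hX : IsMedianGraph X) (x : V) {u v w : V} (hu : X.Adj u w) (hv : X.Adj v w)
    (huv : u ≠ v) (d1 : X.dist x w = X.dist x u + 1) (d2 : X.dist x w = X.dist x v + 1) :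
    ∃ m, IsSquare X m u w v ∧ X.dist x u = X.dist x m + 1 := by
  obtain ⟨m, ⟨h1, h2, h3⟩, _⟩ := hX.2 x u v
  unfold Btw at h1 h2 h3
  have e1 := dist_adj hu
  have e2 := dist_adj hv.symm
  have t : X.dist u v ≤ X.dist u w + X.dist w v := hX.1.dist_triangle
  have s1 : X.dist m u = X.dist u m := dist_comm
  have p : X.dist u v ≠ 0 := fun h => huv (hX.1.dist_eq_zero_iff.1 h)
  have a1 : X.dist m u = 1 := by omega
  have a2 : X.dist m v = 1 := by omega
  refine ⟨m, ⟨adj_of_dist a1, hu, hv.symm, (adj_of_dist a2).symm, ?_, huv⟩, by omega⟩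
  rintro rfl
  omega

theorem exists_pred (hc : X.Connected) (x v : V) (n : ℕ) (h : X.dist x v = n + 1) :
    ∃ u, X.Adj u v ∧ X.dist x u = n := by
  obtain ⟨p, hp⟩ := hc.exists_walk_length_eq_dist v x
  have s : X.dist v x = X.dist x v := dist_comm
  cases p with
  | nil => simp at h
  | @cons _ u _ a p =>
    refine ⟨u, a.symm, ?_⟩
    have h1 := dist_le p
    have h2 : X.dist x v ≤ X.dist x u + X.dist u v := hc.dist_triangle
    have h3 := dist_adj a.symm
    have s2 : X.dist u x = X.dist x u := dist_comm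
    simp at hp
    omega

/-- values reached along geodesics from the base point -/
inductive Reach (X : SimpleGraph V) {Γ : Type*} [Group Γ] (φ : V → V → Γ) (x : V) : V → Γ → Prop
  | base : Reach X φ x x 1
  | step {u v : V} {γ : Γ} : Reach X φ x u γ → X.Adj u v → X.dist x v = X.dist x u + 1 →
      Reach X φ x v (φ u v * γ)

theorem exists_potential (hX : IsMedianGraph X) {Γ : Type*} [Group Γ] (φ : V → V → Γ)
    (hinv : ∀ u v, X.Adj u v → φ v u * φ u v = 1)
    (hsq : ∀ a b c d, IsSquare X a b c d → φ b c * φ a b = φ d c * φ a d) (x : V) :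
    ∃ P : V → Γ, P x = 1 ∧ ∀ u v, X.Adj u v → P v = φ u v * P u := by
  have ex : ∀ (n : ℕ) (v : V), X.dist x v = n → ∃ γ, Reach X φ x v γ := by
    intro n
    induction n with
    | zero => intro v h; rw [← hX.1.dist_eq_zero_iff.1 h]; exact ⟨1, Reach.base⟩
    | succ n ih =>
      intro v h
      obtain ⟨u, a, b⟩ := exists_pred hX.1 x v n h
      obtain ⟨γ, hγ⟩ := ih u b
      exact ⟨_, Reach.step hγ a (by omega)⟩
  have un : ∀ (n : ℕ) (v : V), X.dist x v = n → ∀ γ δ, Reach X φ x v γ → Reach X φ x v δ →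
      γ = δ := by
    intro n
    induction n using Nat.strong_induction_on with
    | _ n ih =>
    intro v h γ δ h1 h2
    cases h1 with
    | base =>
      cases h2 with
      | base => rfl
      | step _ _ c => simp at c
    | @step u _ γ a1 a2 a3 =>
      cases h2 with
      | base => simp at a3
      | @step u' _ δ b1 b2 b3 =>
        by_cases e : u = u'
        · subst e
          rw [ih _ (by omega) u rfl _ _ a1 b1]
        · obtain ⟨m, hm, dm⟩ := quad hX x a2 b2 e a3 b3
          obtain ⟨μ, hμ⟩ := ex _ m rfl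
          have c1 := ih _ (by omega) u rfl _ _ a1 (Reach.step hμ hm.1 dm)
          have c2 := ih _ (by omega) u' rfl _ _ b1 (Reach.step hμ hm.2.2.2.1.symm (by omega))
          rw [c1, c2, ← mul_assoc, ← mul_assoc, hsq _ _ _ _ hm]
  choose P hP using fun v => ex _ v rfl
  refine ⟨P, un _ x rfl _ _ (hP x) Reach.base, ?_⟩
  intro u v h
  rcases bip hX x h with d | d
  · exact un _ v rfl _ _ (hP v) (Reach.step (hP u) h d)
  · have := un _ u rfl _ _ (hP u) (Reach.step (hP v) h.symm d)
    rw [this, ← mul_assoc, hinv _ _ h.symm, one_mul]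

/-- induction along geodesics inside a convex set -/
theorem convex_ind (hc : X.Connected) {C : Set V} (hC : IsConvexIn X C) {Q : V → Prop} {x : V}
    (hx : x ∈ C) (h0 : Q x) (hs : ∀ u v, u ∈ C → v ∈ C → X.Adj u v → Q u → Q v) :
    ∀ v ∈ C, Q v := by
  have : ∀ (n : ℕ), ∀ v ∈ C, X.dist x v = n → Q v := by
    intro n
    induction n with
    | zero => intro v _ h; rw [← hc.dist_eq_zero_iff.1 h]; exact h0
    | succ n ih =>
      intro v hv h
      obtain ⟨u, a, b⟩ := exists_pred hc x v n h
      have hu : u ∈ C := hC x hx v hv u (by unfold Btw; rw [dist_adj a]; omega)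
      exact hs u v hu hv a (ih u hu b)
  exact fun v hv => this _ v hv rfl

theorem square_mem (hX : IsMedianGraph X) {C : Set V} (hC : IsConvexIn X C) {a b c d : V}
    (h : IsSquare X a b c d) (hb : b ∈ C) (hd : d ∈ C) : c ∈ C := by
  refine hC b hb d hd c ?_
  unfold Btw
  have e1 := dist_adj h.2.1
  have e2 := dist_adj h.2.2.1
  have t : X.dist b d ≤ X.dist b c + X.dist c d := hX.1.dist_triangle
  have p : X.dist b d ≠ 0 := fun k => h.2.2.2.2.2 (hX.1.dist_eq_zero_iff.1 k)
  rcases bip hX b h.2.2.1 with k | k <;> omega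

end Pool.Agent.Lib.MP_a112e0_al
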